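import Pool.Agent.R896.RB.Defs

set_option autoImplicit false

namespace Pool.Agent.R896.RB

open Finset Filter Topology

lemma exists_small (hgood : StmtGood) (hstep : StmtStep) (hseq : StmtSeq) (hgraph : StmtGraph)
    (ε : ℝ) (hε : 0 < ε) : ∃ n0 : ℕ, ∀ n : ℕ, n0 ≤ n → ∃ N : ℕ, (N : ℝ) ≤ n + (1 + ε) * Real.logb 2 n ∧
      ∃ G : SimpleGraph (Fin n), NoIsolated G ∧ Arrows N G := by
  obtain ⟨n0, h0⟩ := hseq ε hε
  refine ⟨n0, fun n hn => ?_⟩
  obtain ⟨t, m, ρ, κ, a, r, ht, hκ0, hmt, hκ, hρ, hr0, hr, hrm, ha, hb⟩ := h0 n hn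
  refine ⟨n + t, by push_cast; linarith, ?_⟩
  have hsum : ∀ k ≤ m, ∑ i ∈ Finset.range k, (a i + 1) + r k = r 0 := by
    intro k
    induction k with
    | zero => intro _; simp
    | succ k ih =>
      intro hk
      have h1 := ih (by omega)
      have h2 := hr k (by omega)
      rw [Finset.sum_range_succ]
      omega
  have hn' : ∑ i ∈ Finset.range m, (a i + 1) = n := by
    have := hsum m le_rfl
    omega
  obtain ⟨G, hG, hcont⟩ := hgraph n m a ha hn'
  refine ⟨G, hG, fun H => ?_⟩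
  have hcard : r 0 = Fintype.card (Fin (n + t)) := by rw [hr0, Fintype.card_fin]
  rcases hgood (Fin (n + t)) H t m ρ κ hκ0 hmt hκ hρ with hg | hg
  · obtain ⟨v, L, hS⟩ := hstep (Fin (n + t)) H t m ρ a r hg hcard hr hrm.ge hb
    exact Or.inl (hcont _ H v L hS)
  · obtain ⟨v, L, hS⟩ := hstep (Fin (n + t)) Hᶜ t m ρ a r hg hcard hr hrm.ge hb
    exact Or.inr (hcont _ Hᶜ v L hS)

theorem assemble (hram : StmtRam) (hlow : StmtLow) (hgood : StmtGood) (hstep : StmtStep)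
    (hseq : StmtSeq) (hgraph : StmtGraph) :
    Tendsto (fun n : ℕ => ((f n : ℝ) - n) / Real.logb 2 n) atTop (𝓝 1) := by
  rw [Metric.tendsto_atTop]
  intro ε hε
  obtain ⟨n1, h1⟩ := exists_small hgood hstep hseq hgraph (ε / 2) (by positivity)
  obtain ⟨n2, h2⟩ := hlow (ε / 2) (by positivity)
  refine ⟨max (max n1 n2) 2, fun n hn => ?_⟩
  have hn1 : n1 ≤ n := le_trans (le_trans (le_max_left _ _) (le_max_left _ _)) hn
  have hn2 : n2 ≤ n := le_trans (le_trans (le_max_right _ _) (le_max_left _ _)) hn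
  have hn3 : 2 ≤ n := le_trans (le_max_right _ _) hn
  have hL : 0 < Real.logb 2 n := Real.logb_pos (by norm_num) (by
    have : (2 : ℝ) ≤ n := by exact_mod_cast hn3
    linarith)
  obtain ⟨N, hN, G, hG, hArr⟩ := h1 n hn1
  -- upper bound
  have hmem : ram G ∈ {k : ℕ | ∃ G : SimpleGraph (Fin n), NoIsolated G ∧ k = ram G} := ⟨G, hG, rfl⟩
  have hup : f n ≤ N := (Nat.sInf_le hmem).trans (Nat.sInf_le hArr)
  have hup' : (f n : ℝ) ≤ n + (1 + ε / 2) * Real.logb 2 n :=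
    le_trans (by exact_mod_cast hup) hN
  -- lower bound
  obtain ⟨G', hG', hfG⟩ := Nat.sInf_mem (s := {k : ℕ | ∃ G : SimpleGraph (Fin n), NoIsolated G ∧ k = ram G})
    ⟨_, hmem⟩
  have hArr' : Arrows (ram G') G' := Nat.sInf_mem (s := {N : ℕ | Arrows N G'}) (hram n G')
  have hlo' : (n : ℝ) + (1 - ε / 2) * Real.logb 2 n < (f n : ℝ) := by
    by_contra hcon
    push Not at hcon
    have hfe : (f n : ℝ) = (ram G' : ℝ) := by
      have : f n = ram G' := hfG
      rw [this]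
    rw [hfe] at hcon
    exact h2 n hn2 (ram G') hcon G' hG' hArr'
  rw [Real.dist_eq, abs_lt]
  constructor
  · rw [lt_sub_iff_add_lt, lt_div_iff₀ hL]
    nlinarith
  · rw [sub_lt_iff_lt_add, div_lt_iff₀ hL]
    nlinarith

end Pool.Agent.R896.RB
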