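import Mathlib

/-! Project RB: the minimum Ramsey number of graphs without isolated vertices (MP_624632_co).
Definitions and exact statements of the pieces (complete proofs: NOTES.md). -/

set_option autoImplicit false

namespace Pool.Agent.R896.RB

open Finset Filter Topology

/-- Every colouring of the edges of `K_N` with two colours (the edges of `H` and the edges of `Hᶜ`)
contains a monochromatic copy of `G`. -/
def Arrows (N : ℕ) {n : ℕ} (G : SimpleGraph (Fin n)) : Prop :=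
  ∀ H : SimpleGraph (Fin N), G.IsContained H ∨ G.IsContained Hᶜ

/-- No isolated vertex. -/
def NoIsolated {n : ℕ} (G : SimpleGraph (Fin n)) : Prop := ∀ v, ∃ w, G.Adj v w

/-- The Ramsey number. -/
noncomputable def ram {n : ℕ} (G : SimpleGraph (Fin n)) : ℕ := sInf {N : ℕ | Arrows N G}

/-- The minimum of the Ramsey numbers of the graphs with `n` vertices and no isolated vertex. -/
noncomputable def f (n : ℕ) : ℕ := sInf {k : ℕ | ∃ G : SimpleGraph (Fin n), NoIsolated G ∧ k = ram G}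

/-! ### the pieces -/

/-- RB-RAM: Ramsey's theorem (finiteness). -/
def StmtRam : Prop := ∀ (n : ℕ) (G : SimpleGraph (Fin n)), ∃ N : ℕ, Arrows N G

open Classical in
/-- RB-RG: a graph in which no set of at most `s + 1` vertices dominates all but `s` of the others,
neither in `H` nor in `Hᶜ`. -/
def StmtRG : Prop := ∀ ε : ℝ, 0 < ε → ∃ n0 : ℕ, ∀ n : ℕ, n0 ≤ n → ∀ s : ℕ,
  (s : ℝ) ≤ (1 - ε) * Real.logb 2 n → ∃ H : SimpleGraph (Fin (n + s)),
    ∀ X : Finset (Fin (n + s)), X.card ≤ s + 1 →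
      s < (univ.filter fun y => y ∉ X ∧ ∀ x ∈ X, ¬ H.Adj x y).card ∧
      s < (univ.filter fun y => y ∉ X ∧ ∀ x ∈ X, H.Adj x y).card

/-- RB-LOW: lower bound (Burr and Erdos). -/
def StmtLow : Prop := ∀ ε : ℝ, 0 < ε → ∃ n0 : ℕ, ∀ n : ℕ, n0 ≤ n → ∀ N : ℕ,
  (N : ℝ) ≤ n + (1 - ε) * Real.logb 2 n → ∀ G : SimpleGraph (Fin n), NoIsolated G → ¬ Arrows N G

open Classical in
/-- `H` is good: for disjoint `U`, `Q` with `|U| ≥ t`, `|Q| ≤ m` some vertex outside `Q` is adjacent to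
at least `ρ |U| * |U|` vertices of `U`. -/
def Good {V : Type} [Fintype V] [DecidableEq V] (H : SimpleGraph V) (t m : ℕ) (ρ : ℕ → ℝ) : Prop :=
  ∀ U Q : Finset V, Disjoint U Q → t ≤ U.card → Q.card ≤ m →
    ∃ x, x ∉ Q ∧ ρ U.card * U.card ≤ ((U.filter fun y => H.Adj x y).card : ℝ)

/-- RB-GOOD: one of the two colours is good. -/
def StmtGood : Prop := ∀ (V : Type) [Fintype V] [DecidableEq V] (H : SimpleGraph V) (t m : ℕ)
  (ρ : ℕ → ℝ) (κ : ℝ), 0 ≤ κ → m < t → 2 * κ + 1 / ((t : ℝ) - m) ≤ 1 →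
  (∀ u : ℕ, t ≤ u → ρ u * u ≤ κ * ((u : ℝ) - m)) → Good H t m ρ ∨ Good Hᶜ t m ρ

/-- The embedding of the star forest with star sizes `a 0, ..., a (m-1)`: distinct centres `v i`, disjoint
sets `L i` of `a i` leaves adjacent to `v i`, no centre is a leaf. -/
def Stars {V : Type} [Fintype V] [DecidableEq V] (H : SimpleGraph V) (m : ℕ) (a : ℕ → ℕ)
    (v : Fin m → V) (L : Fin m → Finset V) : Prop :=
  Function.Injective v ∧ (∀ i, (L i).card = a i) ∧ (∀ i, ∀ y ∈ L i, H.Adj (v i) y) ∧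
    (∀ i j, i ≠ j → Disjoint (L i) (L j)) ∧ ∀ i j, v j ∉ L i

/-- RB-STEP: a good colour contains the star forest. `r i` is the number of vertices left after `i` stars. -/
def StmtStep : Prop := ∀ (V : Type) [Fintype V] [DecidableEq V] (H : SimpleGraph V) (t m : ℕ)
  (ρ : ℕ → ℝ) (a r : ℕ → ℕ), Good H t m ρ → r 0 = Fintype.card V →
  (∀ i < m, r (i + 1) + a i + 1 = r i) → t ≤ r m →
  (∀ i < m, (a i : ℝ) + ((m : ℝ) - i) ≤ ρ (r i) * r i) →
  ∃ (v : Fin m → V) (L : Fin m → Finset V), Stars H m a v L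

/-- RB-SEQ: the star sizes. -/
def StmtSeq : Prop := ∀ ε : ℝ, 0 < ε → ∃ n0 : ℕ, ∀ n : ℕ, n0 ≤ n →
  ∃ (t m : ℕ) (ρ : ℕ → ℝ) (κ : ℝ) (a r : ℕ → ℕ), (t : ℝ) ≤ (1 + ε) * Real.logb 2 n ∧ 0 ≤ κ ∧ m < t ∧
    2 * κ + 1 / ((t : ℝ) - m) ≤ 1 ∧ (∀ u : ℕ, t ≤ u → ρ u * u ≤ κ * ((u : ℝ) - m)) ∧
    r 0 = n + t ∧ (∀ i < m, r (i + 1) + a i + 1 = r i) ∧ r m = t ∧ (∀ i < m, 1 ≤ a i) ∧
    (∀ i < m, (a i : ℝ) + ((m : ℝ) - i) ≤ ρ (r i) * r i)

/-- RB-GRAPH: the star forest as a graph on `Fin n`. -/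
def StmtGraph : Prop := ∀ (n m : ℕ) (a : ℕ → ℕ), (∀ i < m, 1 ≤ a i) →
  ∑ i ∈ Finset.range m, (a i + 1) = n → ∃ G : SimpleGraph (Fin n), NoIsolated G ∧
    ∀ (V : Type) [Fintype V] [DecidableEq V] (H : SimpleGraph V) (v : Fin m → V)
      (L : Fin m → Finset V), Stars H m a v L → G.IsContained H

end Pool.Agent.R896.RB
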