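import Pool.Agent.R896.RB.Defs

/-!
# RB-GOOD: one of the two colours is good (double counting)
-/

set_option autoImplicit false

namespace Pool.Agent.R896.RB

open Finset

namespace GoodAux

open Classical in
theorem count {V : Type} [Fintype V] (H H' : SimpleGraph V)
    (hH : ∀ x y, x ≠ y → ¬ H.Adj y x → H'.Adj x y) (A B : Finset V) :
    A.card * B.card ≤ ∑ y ∈ B, (A.filter fun x => H.Adj y x).card +
      ∑ x ∈ A, (B.filter fun y => H'.Adj x y).card + A.card := by
  have h0 : A.card * B.card = ∑ x ∈ A, ∑ y ∈ B, 1 := by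
    simp
  have h1 : ∑ y ∈ B, (A.filter fun x => H.Adj y x).card =
      ∑ x ∈ A, ∑ y ∈ B, (if H.Adj y x then 1 else 0) := by
    rw [Finset.sum_comm]
    apply Finset.sum_congr rfl
    intro y _
    rw [Finset.card_filter]
  have h2 : ∑ x ∈ A, (B.filter fun y => H'.Adj x y).card =
      ∑ x ∈ A, ∑ y ∈ B, (if H'.Adj x y then 1 else 0) := by
    apply Finset.sum_congr rfl
    intro y _
    rw [Finset.card_filter]
  have h3 : ∑ x ∈ A, ∑ y ∈ B, (if x = y then 1 else 0) ≤ A.card := by
    rw [Finset.card_eq_sum_ones]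
    apply Finset.sum_le_sum
    intro x _
    rw [Finset.sum_ite_eq]
    split_ifs <;> simp
  have h4 : ∑ x ∈ A, ∑ y ∈ B, 1 ≤ ∑ x ∈ A, ∑ y ∈ B, ((if H.Adj y x then 1 else 0) +
      (if H'.Adj x y then 1 else 0) + (if x = y then 1 else 0)) := by
    apply Finset.sum_le_sum
    intro x _
    apply Finset.sum_le_sum
    intro y _
    by_cases hxy : x = y
    · simp [hxy]
    · by_cases hadj : H.Adj y x
      · rw [if_pos hadj]
        omega
      · rw [if_pos (hH x y hxy hadj)]
        omega
  simp only [Finset.sum_add_distrib] at h4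
  rw [h0, h1, h2]
  omega

end GoodAux

open Classical in
theorem good : StmtGood := by
  intro V _ _ H t m ρ κ hκ hmt h2 hρ
  by_contra hcon
  rw [not_or] at hcon
  obtain ⟨hn1, hn2⟩ := hcon
  obtain ⟨H', hH'⟩ : ∃ H' : SimpleGraph V, H' = Hᶜ := ⟨_, rfl⟩
  rw [← hH'] at hn2
  have hHH : ∀ x y, x ≠ y → ¬ H.Adj y x → H'.Adj x y := by
    intro x y hxy hadj
    rw [hH', SimpleGraph.compl_adj]
    exact ⟨hxy, fun h => hadj h.symm⟩
  clear hH'
  unfold Good at hn1 hn2
  push Not at hn1 hn2
  obtain ⟨U, Q, hUQ, htU, hQ, hU⟩ := hn1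
  obtain ⟨U', Q', hUQ', htU', hQ', hU'⟩ := hn2
  have hmt' : (0 : ℝ) < (t : ℝ) - m := by
    have : (m : ℝ) < t := by exact_mod_cast hmt
    linarith
  set A : Finset V := U \ Q' with hA
  set B : Finset V := U' \ Q with hB
  have hAc : (U.card : ℝ) - m ≤ A.card := by
    have h : U.card ≤ A.card + Q'.card := by
      have := Finset.le_card_sdiff Q' U
      rw [hA]
      omega
    have h' : (U.card : ℝ) ≤ A.card + Q'.card := by exact_mod_cast h
    have h'' : (Q'.card : ℝ) ≤ m := by exact_mod_cast hQ'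
    linarith
  have hBc : (U'.card : ℝ) - m ≤ B.card := by
    have h : U'.card ≤ B.card + Q.card := by
      have := Finset.le_card_sdiff Q U'
      rw [hB]
      omega
    have h' : (U'.card : ℝ) ≤ B.card + Q.card := by exact_mod_cast h
    have h'' : (Q.card : ℝ) ≤ m := by exact_mod_cast hQ
    linarith
  have htU1 : (t : ℝ) ≤ U.card := by exact_mod_cast htU
  have htU2 : (t : ℝ) ≤ U'.card := by exact_mod_cast htU'
  have hApos : (0 : ℝ) < A.card := by linarith
  have hBpos : (0 : ℝ) < B.card := by linarith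
  have hAne : A.Nonempty := by
    rw [← Finset.card_pos]
    exact_mod_cast hApos
  have hs1 : (∑ y ∈ B, ((A.filter fun x => H.Adj y x).card : ℝ)) ≤ B.card * (κ * A.card) := by
    rw [← nsmul_eq_mul]
    apply Finset.sum_le_card_nsmul
    intro y hy
    have hyQ : y ∉ Q := (Finset.mem_sdiff.1 hy).2
    have e1 : ((A.filter fun x => H.Adj y x).card : ℝ) ≤ (U.filter fun x => H.Adj y x).card := by
      have : (A.filter fun x => H.Adj y x) ⊆ (U.filter fun x => H.Adj y x) :=
        Finset.filter_subset_filter _ Finset.sdiff_subset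
      exact_mod_cast Finset.card_le_card this
    have e2 := hU y hyQ
    have e3 := hρ U.card htU
    have e4 : κ * ((U.card : ℝ) - m) ≤ κ * A.card := mul_le_mul_of_nonneg_left hAc hκ
    linarith
  have hs2 : (∑ x ∈ A, ((B.filter fun y => H'.Adj x y).card : ℝ)) < A.card * (κ * B.card) := by
    have : (A.card : ℝ) * (κ * B.card) = ∑ _x ∈ A, (κ * (B.card : ℝ)) := by
      rw [Finset.sum_const, nsmul_eq_mul]
    rw [this]
    apply Finset.sum_lt_sum_of_nonempty hAne
    intro x hx
    have hxQ : x ∉ Q' := (Finset.mem_sdiff.1 hx).2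
    have e1 : ((B.filter fun y => H'.Adj x y).card : ℝ) ≤ (U'.filter fun y => H'.Adj x y).card := by
      have : (B.filter fun y => H'.Adj x y) ⊆ (U'.filter fun y => H'.Adj x y) :=
        Finset.filter_subset_filter _ Finset.sdiff_subset
      exact_mod_cast Finset.card_le_card this
    have e2 := hU' x hxQ
    have e3 := hρ U'.card htU'
    have e4 : κ * ((U'.card : ℝ) - m) ≤ κ * B.card := mul_le_mul_of_nonneg_left hBc hκ
    linarith
  have hc := GoodAux.count H H' hHH A B
  have hc' : (A.card : ℝ) * B.card ≤ (∑ y ∈ B, ((A.filter fun x => H.Adj y x).card : ℝ)) +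
      (∑ x ∈ A, ((B.filter fun y => H'.Adj x y).card : ℝ)) + A.card := by
    exact_mod_cast hc
  have hBt : (t : ℝ) - m ≤ B.card := by linarith
  have h5 : (A.card : ℝ) * B.card < 2 * κ * (A.card * B.card) + A.card := by
    nlinarith
  have h6 : (A.card : ℝ) ≤ 1 / ((t : ℝ) - m) * (A.card * B.card) := by
    rw [one_div, inv_mul_eq_div, le_div_iff₀ hmt']
    exact mul_le_mul_of_nonneg_left hBt hApos.le
  have h7 : (2 * κ + 1 / ((t : ℝ) - m)) * ((A.card : ℝ) * B.card) ≤ 1 * (A.card * B.card) :=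
    mul_le_mul_of_nonneg_right h2 (by positivity)
  linarith

end Pool.Agent.R896.RB
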