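import Pool.Agent.R896.RB.Defs

/-! RB-GRAPH: the star forest as a graph on `Fin n` (helper45). -/

set_option autoImplicit false

namespace Pool.Agent.R896.RB

namespace GraphAux

/-- Vertices of the star forest: `⟨i, none⟩` is the centre of the star `i`. -/
abbrev W (m : ℕ) (a : ℕ → ℕ) : Type := Σ i : Fin m, Option (Fin (a i))

/-- The star forest. -/
def forest (m : ℕ) (a : ℕ → ℕ) : SimpleGraph (W m a) where
  Adj p q := p.1 = q.1 ∧ p.2.isNone ≠ q.2.isNone
  symm := ⟨fun _ _ h => ⟨h.1.symm, h.2.symm⟩⟩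
  loopless := ⟨fun _ h => h.2 rfl⟩

lemma card_W (m : ℕ) (a : ℕ → ℕ) :
    Fintype.card (W m a) = ∑ i ∈ Finset.range m, (a i + 1) := by
  rw [Fintype.card_sigma, Finset.sum_range]
  exact Finset.sum_congr rfl fun i _ => by rw [Fintype.card_option, Fintype.card_fin]

/-- The embedding of the forest. -/
noncomputable def emb {V : Type} (m : ℕ) (a : ℕ → ℕ) (v : Fin m → V) (L : Fin m → Finset V)
    (h : ∀ i, (L i).card = a i) (p : W m a) : V :=
  match p with
  | ⟨i, none⟩ => v i
  | ⟨i, some j⟩ => (((L i).equivFinOfCardEq (h i)).symm j : V)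

lemma emb_none {V : Type} (m : ℕ) (a : ℕ → ℕ) (v : Fin m → V) (L : Fin m → Finset V)
    (h : ∀ i, (L i).card = a i) (i : Fin m) : emb m a v L h ⟨i, none⟩ = v i := rfl

lemma emb_mem {V : Type} (m : ℕ) (a : ℕ → ℕ) (v : Fin m → V) (L : Fin m → Finset V)
    (h : ∀ i, (L i).card = a i) (i : Fin m) (j : Fin (a i)) :
    emb m a v L h ⟨i, some j⟩ ∈ L i :=
  (((L i).equivFinOfCardEq (h i)).symm j).2

lemma emb_some_inj {V : Type} (m : ℕ) (a : ℕ → ℕ) (v : Fin m → V) (L : Fin m → Finset V)
    (h : ∀ i, (L i).card = a i) (i : Fin m) (j k : Fin (a i))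
    (e : emb m a v L h ⟨i, some j⟩ = emb m a v L h ⟨i, some k⟩) : j = k :=
  ((L i).equivFinOfCardEq (h i)).symm.injective (Subtype.ext e)

lemma emb_injective {V : Type} [Fintype V] [DecidableEq V] (H : SimpleGraph V) (m : ℕ) (a : ℕ → ℕ)
    (v : Fin m → V) (L : Fin m → Finset V) (hS : Stars H m a v L) :
    Function.Injective (emb m a v L hS.2.1) := by
  obtain ⟨hv, hc, hadj, hdis, hvL⟩ := hS
  rintro ⟨i, o⟩ ⟨j, p⟩ e
  cases o with
  | none =>
    cases p with
    | none =>
      have : i = j := hv e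
      subst this
      rfl
    | some k =>
      exfalso
      have := emb_mem m a v L hc j k
      rw [← e] at this
      exact hvL j i this
  | some l =>
    cases p with
    | none =>
      exfalso
      have := emb_mem m a v L hc i l
      rw [e] at this
      exact hvL i j this
    | some k =>
      have h1 := emb_mem m a v L hc i l
      have h2 := emb_mem m a v L hc j k
      by_cases hij : i = j
      · subst hij
        have := emb_some_inj m a v L hc i l k e
        rw [this]
      · exfalso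
        rw [e] at h1
        exact Finset.disjoint_left.mp (hdis i j hij) h1 h2

lemma emb_adj {V : Type} [Fintype V] [DecidableEq V] (H : SimpleGraph V) (m : ℕ) (a : ℕ → ℕ)
    (v : Fin m → V) (L : Fin m → Finset V) (hS : Stars H m a v L) (p q : W m a)
    (h : (forest m a).Adj p q) : H.Adj (emb m a v L hS.2.1 p) (emb m a v L hS.2.1 q) := by
  obtain ⟨hv, hc, hadj, hdis, hvL⟩ := hS
  obtain ⟨i, o⟩ := p
  obtain ⟨j, p⟩ := q
  obtain ⟨h1, h2⟩ := h
  have h1' : i = j := h1
  subst h1'
  cases o with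
  | none =>
    cases p with
    | none => exact absurd rfl h2
    | some k => exact hadj i _ (emb_mem m a v L hc i k)
  | some l =>
    cases p with
    | none => exact (hadj i _ (emb_mem m a v L hc i l)).symm
    | some k => exact absurd rfl h2

end GraphAux

open GraphAux in
/-- RB-GRAPH. -/
theorem grph : StmtGraph := by
  intro n m a ha hn
  have e : W m a ≃ Fin n := Fintype.equivFinOfCardEq ((card_W m a).trans hn)
  refine ⟨(forest m a).comap e.symm, ?_, ?_⟩
  · intro x
    obtain ⟨⟨i, o⟩, hx⟩ : ∃ p, e.symm x = p := ⟨_, rfl⟩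
    cases o with
    | none =>
      refine ⟨e ⟨i, some ⟨0, ha i i.2⟩⟩, ?_⟩
      rw [SimpleGraph.comap_adj, hx, Equiv.symm_apply_apply]
      exact ⟨rfl, by simp⟩
    | some k =>
      refine ⟨e ⟨i, none⟩, ?_⟩
      rw [SimpleGraph.comap_adj, hx, Equiv.symm_apply_apply]
      exact ⟨rfl, by simp⟩
  · intro V _ _ H v L hS
    exact ⟨⟨⟨fun x => emb m a v L hS.2.1 (e.symm x), fun {x y} h => emb_adj H m a v L hS _ _ h⟩,
      fun x y h => e.symm.injective (emb_injective H m a v L hS h)⟩⟩

end Pool.Agent.R896.RB
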