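import Pool.Agent.R896.RB.Defs

/-! Project RB (helper896), piece RB-LOW by helper780: the Burr-Erdos lower bound. -/

set_option autoImplicit false

namespace Pool.Agent.R896.RB

open Finset Filter Topology

namespace Low

lemma count {n s : ℕ} (φ : Fin n → Fin (n + s)) (hφ : Function.Injective φ)
    (F : Finset (Fin (n + s))) (hF : s < F.card) (hd : ∀ w, φ w ∉ F) : False := by
  have h1 : Disjoint (univ.image φ) F := by
    rw [Finset.disjoint_left]
    intro y hy hyF
    obtain ⟨w, _, rfl⟩ := Finset.mem_image.mp hy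
    exact hd w hyF
  have h2 : (univ.image φ).card = n := by
    rw [Finset.card_image_of_injective _ hφ, Finset.card_univ, Fintype.card_fin]
  have h3 := Finset.card_le_univ (univ.image φ ∪ F)
  rw [Finset.card_union_of_disjoint h1, h2, Fintype.card_fin] at h3
  omega

/-- the graph of all edges that meet `T` -/
def meet {V : Type} (T : Finset V) : SimpleGraph V where
  Adj x y := x ≠ y ∧ (x ∈ T ∨ y ∈ T)
  symm := ⟨fun _ _ h => ⟨h.1.symm, h.2.symm⟩⟩
  loopless := ⟨fun _ h => h.1 rfl⟩

end Low

open Low in
theorem low (h : StmtRG) : StmtLow := by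
  classical
  intro ε hε
  obtain ⟨n0, hn0⟩ := h ε hε
  refine ⟨max n0 1, ?_⟩
  intro n hn N hN G hG hA
  have hn1 : n0 ≤ n := (le_max_left _ _).trans hn
  have hn2 : 1 ≤ n := (le_max_right _ _).trans hn
  by_cases hle : n ≤ N
  swap
  · rcases hA ⊥ with hc | hc
    · obtain ⟨φ⟩ := hc
      have := Fintype.card_le_of_injective _ φ.injective
      simp only [Fintype.card_fin] at this
      omega
    · obtain ⟨φ⟩ := hc
      have := Fintype.card_le_of_injective _ φ.injective
      simp only [Fintype.card_fin] at this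
      omega
  obtain ⟨s, rfl⟩ := Nat.exists_eq_add_of_le hle
  have hs : (s : ℝ) ≤ (1 - ε) * Real.logb 2 n := by
    push_cast at hN
    linarith
  by_cases hcov : ∃ X : Finset (Fin n), X.card ≤ s + 1 ∧ ∀ u v, G.Adj u v → u ∈ X ∨ v ∈ X
  · obtain ⟨X, hX, hX2⟩ := hcov
    obtain ⟨H, hH⟩ := hn0 n hn1 s hs
    rcases hA H with hc | hc
    · obtain ⟨φ⟩ := hc
      have hinj : Function.Injective φ := φ.injective
      obtain ⟨h1, _⟩ := hH (X.image φ) (Finset.card_image_le.trans hX)
      apply count φ hinj _ h1
      intro w hw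
      rw [Finset.mem_filter] at hw
      obtain ⟨_, hw1, hw2⟩ := hw
      obtain ⟨w', hww'⟩ := hG w
      have hwX : w ∉ X := fun hwX => hw1 (Finset.mem_image_of_mem _ hwX)
      have hw'X : w' ∈ X := (hX2 w w' hww').resolve_left hwX
      exact hw2 (φ w') (Finset.mem_image_of_mem _ hw'X) (φ.toHom.map_adj hww'.symm)
    · obtain ⟨φ⟩ := hc
      have hinj : Function.Injective φ := φ.injective
      obtain ⟨_, h1⟩ := hH (X.image φ) (Finset.card_image_le.trans hX)
      apply count φ hinj _ h1
      intro w hw
      rw [Finset.mem_filter] at hw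
      obtain ⟨_, hw1, hw2⟩ := hw
      obtain ⟨w', hww'⟩ := hG w
      have hwX : w ∉ X := fun hwX => hw1 (Finset.mem_image_of_mem _ hwX)
      have hw'X : w' ∈ X := (hX2 w w' hww').resolve_left hwX
      have h2 : Hᶜ.Adj (φ w') (φ w) := φ.toHom.map_adj hww'.symm
      rw [SimpleGraph.compl_adj] at h2
      exact h2.2 (hw2 (φ w') (Finset.mem_image_of_mem _ hw'X))
  · push Not at hcov
    obtain ⟨T, _, hT⟩ := Finset.exists_subset_card_eq
      (s := (univ : Finset (Fin (n + s)))) (n := s + 1) (by
        rw [Finset.card_univ, Fintype.card_fin]; omega)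
    rcases hA (meet T) with hc | hc
    · obtain ⟨φ⟩ := hc
      have hinj : Function.Injective φ := φ.injective
      have hcard : (univ.filter fun u => φ u ∈ T).card ≤ s + 1 := by
        rw [← hT]
        apply Finset.card_le_card_of_injOn φ
        · intro u hu
          have hu' := Finset.mem_coe.mp hu
          rw [Finset.mem_filter] at hu'
          exact Finset.mem_coe.mpr hu'.2
        · exact hinj.injOn
      obtain ⟨u, v, huv, hu, hv⟩ := hcov _ hcard
      have h2 : (meet T).Adj (φ u) (φ v) := φ.toHom.map_adj huv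
      rcases h2.2 with h3 | h3
      · exact hu (Finset.mem_filter.mpr ⟨mem_univ _, h3⟩)
      · exact hv (Finset.mem_filter.mpr ⟨mem_univ _, h3⟩)
    · obtain ⟨φ⟩ := hc
      have hinj : Function.Injective φ := φ.injective
      apply count φ hinj T (by omega)
      intro w hw
      obtain ⟨w', hww'⟩ := hG w
      have h2 : (meet T)ᶜ.Adj (φ w) (φ w') := φ.toHom.map_adj hww'
      rw [SimpleGraph.compl_adj] at h2
      exact h2.2 ⟨h2.1, Or.inl hw⟩

end Pool.Agent.R896.RB
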