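import Pool.Agent.R896.RB.Defs
import Pool.Agent.R896.DC.Tool

/-! RB-RG: a random graph has no small dominating sets. -/

set_option autoImplicit false

namespace Pool.Agent.R896.RB

open Finset Filter Topology

namespace RG

open Pool.Agent.R896.DC

variable {N : ℕ}

/-- coordinate of a pair -/
def e (u v : Fin N) : Fin N × Fin N := (min u v, max u v)

theorem e_comm (u v : Fin N) : e u v = e v u := by
  unfold e
  rw [min_comm, max_comm]

theorem e_inj {u v u' v' : Fin N} (h : e u v = e u' v') :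
    (u = u' ∧ v = v') ∨ (u = v' ∧ v = u') := by
  unfold e at h
  rw [Prod.mk.injEq] at h
  rcases le_total u v with h1 | h1 <;> rcases le_total u' v' with h2 | h2 <;>
    simp only [min_eq_left, min_eq_right, max_eq_left, max_eq_right, h1, h2] at h <;> tauto

/-- fair bits -/
noncomputable def hp : Fin N × Fin N → ℝ := fun _ => 1 / 2

theorem hp01 : ∀ i : Fin N × Fin N, 0 ≤ hp i ∧ hp i ≤ 1 := by
  intro i
  unfold hp
  norm_num

theorem Pr_all (C : Finset (Fin N × Fin N)) (b : Bool) :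
    Pr hp {ω | ∀ c ∈ C, ω c = b} = (1 / 2) ^ C.card := by
  rw [Pr_ind hp C (fun c => {c}) (fun c ω => ω c = b) ?_ ?_]
  · have h1 : ∀ c ∈ C, Pr hp {ω : Fin N × Fin N → Bool | ω c = b} = 1 / 2 := by
      intro c _
      cases b
      · have h := Pr_compl hp {ω : Fin N × Fin N → Bool | ω c = true}
        rw [Pr_bit] at h
        have h2 : {ω : Fin N × Fin N → Bool | ω c = false} =
            {ω : Fin N × Fin N → Bool | ω c = true}ᶜ := by
          ext ω
          simp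
        rw [h2, h]
        norm_num [hp]
      · rw [Pr_bit]
        rfl
    rw [Finset.prod_congr rfl h1, Finset.prod_const]
  · intro c _ x y hxy
    have := hxy c (Set.mem_singleton c)
    simp only [this]
  · intro a _ b _ hab
    exact Set.disjoint_singleton.mpr hab

/-- the bad event -/
def bad (b : Bool) (X Y : Finset (Fin N)) : Set (Fin N × Fin N → Bool) :=
  {ω | ∀ v ∈ univ \ (X ∪ Y), ∃ x ∈ X, ω (e x v) = b}

theorem Pr_bad (b : Bool) (X Y : Finset (Fin N)) (s : ℕ) (hX : X.card ≤ s + 1)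
    (hY : Y.card ≤ s) :
    Pr hp (bad b X Y) ≤ Real.exp (-((1 / 2) ^ (s + 1) * ((N : ℝ) - (2 * s + 1)))) := by
  classical
  unfold bad
  rw [Pr_ind hp (univ \ (X ∪ Y)) (fun v => {i | ∃ x ∈ X, i = e x v})
    (fun v ω => ∃ x ∈ X, ω (e x v) = b) ?_ ?_]
  · have h1 : ∀ v ∈ univ \ (X ∪ Y), Pr hp {ω : Fin N × Fin N → Bool | ∃ x ∈ X, ω (e x v) = b} ≤
        Real.exp (-((1 / 2) ^ (s + 1))) := by
      intro v _
      have h2 : {ω : Fin N × Fin N → Bool | ∃ x ∈ X, ω (e x v) = b} =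
          {ω : Fin N × Fin N → Bool | ∀ c ∈ X.image (fun x => e x v), ω c = !b}ᶜ := by
        ext ω
        simp only [Set.mem_ofPred_eq, Set.mem_compl_iff, Finset.forall_mem_image, not_forall]
        constructor
        · rintro ⟨x, hx, h⟩
          exact ⟨x, hx, by rw [h]; cases b <;> simp⟩
        · rintro ⟨x, hx, h⟩
          refine ⟨x, hx, ?_⟩
          cases b <;> simpa using h
      rw [h2, Pr_compl, Pr_all]
      have h3 : (1 / 2 : ℝ) ^ (s + 1) ≤ (1 / 2) ^ (X.image (fun x => e x v)).card :=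
        pow_le_pow_of_le_one (by norm_num) (by norm_num) (Finset.card_image_le.trans hX)
      have h4 := Real.add_one_le_exp (-((1 / 2 : ℝ) ^ (s + 1)))
      linarith
    refine (Finset.prod_le_prod (fun v _ => Pr_nonneg hp01 _) h1).trans ?_
    rw [Finset.prod_const, ← Real.exp_nat_mul]
    apply Real.exp_le_exp.2
    have h5 : (N : ℝ) - (2 * s + 1) ≤ ((univ \ (X ∪ Y)).card : ℝ) := by
      have h6 : (univ \ (X ∪ Y)).card = N - (X ∪ Y).card := by
        rw [Finset.card_sdiff_of_subset (Finset.subset_univ _), Finset.card_univ, Fintype.card_fin]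
      have h7 := Finset.card_union_le X Y
      have h8 : (N : ℝ) ≤ ((univ \ (X ∪ Y)).card : ℝ) + (2 * s + 1) := by
        exact_mod_cast (by omega : N ≤ (univ \ (X ∪ Y)).card + (2 * s + 1))
      linarith
    have h9 : (0 : ℝ) ≤ (1 / 2) ^ (s + 1) := by positivity
    nlinarith
  · intro v _ x y hxy
    apply propext
    constructor
    · rintro ⟨a, ha, h⟩
      exact ⟨a, ha, by rw [← hxy _ ⟨a, ha, rfl⟩]; exact h⟩
    · rintro ⟨a, ha, h⟩
      exact ⟨a, ha, by rw [hxy _ ⟨a, ha, rfl⟩]; exact h⟩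
  · intro v hv w hw hvw
    rw [Set.disjoint_left]
    rintro i ⟨x, hx, rfl⟩ ⟨y, hy, h⟩
    rcases e_inj h with ⟨_, h2⟩ | ⟨_, h2⟩
    · exact hvw h2
    · rw [Finset.mem_sdiff, Finset.mem_union, not_or] at hv
      exact hv.2.1 (h2 ▸ hy)

theorem card_small (m : ℕ) (hm : m + 1 ≤ N) :
    (univ.filter fun X : Finset (Fin N) => X.card ≤ m).card ≤ N ^ (m + 1) := by
  classical
  have h1 : (univ.filter fun X : Finset (Fin N) => X.card ≤ m) ⊆
      (Finset.range (m + 1)).biUnion fun k => Finset.powersetCard k univ := by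
    intro X hX
    rw [Finset.mem_filter] at hX
    rw [Finset.mem_biUnion]
    exact ⟨X.card, Finset.mem_range.2 (by omega),
      Finset.mem_powersetCard.2 ⟨Finset.subset_univ _, rfl⟩⟩
  refine (Finset.card_le_card h1).trans (Finset.card_biUnion_le.trans ?_)
  have h2 : ∀ k ∈ Finset.range (m + 1),
      (Finset.powersetCard k (univ : Finset (Fin N))).card ≤ N ^ m := by
    intro k hk
    rw [Finset.mem_range] at hk
    rw [Finset.card_powersetCard, Finset.card_univ, Fintype.card_fin]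
    exact (Nat.choose_le_pow N k).trans (Nat.pow_le_pow_right (by omega) (by omega))
  refine (Finset.sum_le_sum h2).trans ?_
  rw [Finset.sum_const, Finset.card_range, smul_eq_mul, pow_succ, mul_comm]
  exact Nat.mul_le_mul_left _ hm

/-- the random graph -/
def gr (ω : Fin N × Fin N → Bool) : SimpleGraph (Fin N) where
  Adj u v := u ≠ v ∧ ω (e u v) = true
  symm := ⟨fun u v h => ⟨h.1.symm, by rw [e_comm]; exact h.2⟩⟩
  loopless := ⟨fun u h => h.1 rfl⟩

open Classical in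
theorem exists_graph (s : ℕ) (hs : s + 2 ≤ N)
    (h : 2 * ((N : ℝ) ^ (s + 2) * (N : ℝ) ^ (s + 2)) *
      Real.exp (-((1 / 2) ^ (s + 1) * ((N : ℝ) - (2 * s + 1)))) < 1) :
    ∃ H : SimpleGraph (Fin N), ∀ X : Finset (Fin N), X.card ≤ s + 1 →
      s < (univ.filter fun y => y ∉ X ∧ ∀ x ∈ X, ¬ H.Adj x y).card ∧
      s < (univ.filter fun y => y ∉ X ∧ ∀ x ∈ X, H.Adj x y).card := by
  set S : Finset (Bool × Finset (Fin N) × Finset (Fin N)) :=
    univ ×ˢ ((univ.filter fun X : Finset (Fin N) => X.card ≤ s + 1) ×ˢ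
      (univ.filter fun X : Finset (Fin N) => X.card ≤ s)) with hS
  have hc1 := card_small (N := N) (s + 1) (by omega)
  have hc2 : (univ.filter fun X : Finset (Fin N) => X.card ≤ s).card ≤ N ^ (s + 2) :=
    (card_small (N := N) s (by omega)).trans (Nat.pow_le_pow_right (by omega) (by omega))
  have hcard : (S.card : ℝ) ≤ 2 * ((N : ℝ) ^ (s + 2) * (N : ℝ) ^ (s + 2)) := by
    rw [hS, Finset.card_product, Finset.card_product, Finset.card_univ, Fintype.card_bool]
    have := Nat.mul_le_mul_left 2 (Nat.mul_le_mul hc1 hc2)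
    exact_mod_cast this
  have hun := Pr_exists_le (p := hp) (hp01 (N := N)) S (fun t => bad t.1 t.2.1 t.2.2)
  have hlt : Pr hp {ω : Fin N × Fin N → Bool | ∃ t ∈ S, ω ∈ bad t.1 t.2.1 t.2.2} < 1 := by
    refine lt_of_le_of_lt hun (lt_of_le_of_lt ?_ h)
    refine (Finset.sum_le_sum (g := fun _ =>
      Real.exp (-((1 / 2) ^ (s + 1) * ((N : ℝ) - (2 * s + 1))))) fun t ht => ?_).trans ?_
    · rw [hS, Finset.mem_product, Finset.mem_product, Finset.mem_filter, Finset.mem_filter] at ht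
      exact Pr_bad t.1 t.2.1 t.2.2 s ht.2.1.2 ht.2.2.2
    · rw [Finset.sum_const, nsmul_eq_mul]
      exact mul_le_mul_of_nonneg_right hcard (Real.exp_nonneg _)
  obtain ⟨ω, hω⟩ : ∃ ω : Fin N × Fin N → Bool, ¬ ∃ t ∈ S, ω ∈ bad t.1 t.2.1 t.2.2 := by
    by_contra hcon
    push Not at hcon
    have h1 : {ω : Fin N × Fin N → Bool | ∃ t ∈ S, ω ∈ bad t.1 t.2.1 t.2.2}ᶜ = ∅ := by
      ext ω
      simp only [Set.mem_compl_iff, Set.mem_ofPred_eq, Set.mem_empty_iff_false, iff_false, not_not]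
      exact hcon ω
    have h2 := Pr_compl hp {ω : Fin N × Fin N → Bool | ∃ t ∈ S, ω ∈ bad t.1 t.2.1 t.2.2}
    rw [h1] at h2
    have h3 : Pr (hp (N := N)) ∅ = 0 := by
      unfold Pr
      simp only [Set.mem_empty_iff_false, if_false]
      exact Ex_const _ _
    rw [h3] at h2
    linarith
  refine ⟨gr ω, fun X hX => ⟨?_, ?_⟩⟩
  · by_contra hcon
    push Not at hcon
    refine hω ⟨(true, X, univ.filter fun y => y ∉ X ∧ ∀ x ∈ X, ¬ (gr ω).Adj x y), ?_, ?_⟩
    · rw [hS, Finset.mem_product, Finset.mem_product, Finset.mem_filter, Finset.mem_filter]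
      exact ⟨Finset.mem_univ _, ⟨Finset.mem_univ _, hX⟩, ⟨Finset.mem_univ _, hcon⟩⟩
    · intro v hv
      rw [Finset.mem_sdiff, Finset.mem_union, not_or, Finset.mem_filter] at hv
      obtain ⟨-, hv1, hv2⟩ := hv
      by_contra hne
      push Not at hne
      exact hv2 ⟨Finset.mem_univ _, hv1, fun x hx hadj => hne x hx hadj.2⟩
  · by_contra hcon
    push Not at hcon
    refine hω ⟨(false, X, univ.filter fun y => y ∉ X ∧ ∀ x ∈ X, (gr ω).Adj x y), ?_, ?_⟩
    · rw [hS, Finset.mem_product, Finset.mem_product, Finset.mem_filter, Finset.mem_filter]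
      exact ⟨Finset.mem_univ _, ⟨Finset.mem_univ _, hX⟩, ⟨Finset.mem_univ _, hcon⟩⟩
    · intro v hv
      rw [Finset.mem_sdiff, Finset.mem_union, not_or, Finset.mem_filter] at hv
      obtain ⟨-, hv1, hv2⟩ := hv
      by_contra hne
      push Not at hne
      refine hv2 ⟨Finset.mem_univ _, hv1, fun x hx => ⟨?_, ?_⟩⟩
      · rintro rfl
        exact hv1 hx
      · have := hne x hx
        simpa using this

theorem numerics (ε : ℝ) (hε : 0 < ε) : ∃ n0 : ℕ, ∀ n : ℕ, n0 ≤ n →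
    3 ≤ (n : ℝ) ∧ 1 ≤ Real.log n ∧ 2 * Real.log n + 1 ≤ n / 2 ∧
      1 + 16 * Real.log n ^ 2 < (n : ℝ) ^ ε / 4 := by
  have h1 : ∀ᶠ x : ℝ in atTop, 1 + 16 * Real.log x ^ 2 < x ^ ε / 4 := by
    have h2 : ∀ᶠ x : ℝ in atTop, ‖Real.log x‖ ≤ (1 / 16) * ‖x ^ (ε / 2)‖ :=
      (isLittleO_log_rpow_atTop (by linarith : 0 < ε / 2)).bound (by norm_num)
    have h3 : ∀ᶠ x : ℝ in atTop, 8 < x ^ ε :=
      (tendsto_rpow_atTop hε).eventually (eventually_gt_atTop 8)
    filter_upwards [h2, h3, eventually_gt_atTop 0] with x hx1 hx2 hx0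
    have h4 : (x ^ (ε / 2)) ^ 2 = x ^ ε := by
      rw [← Real.rpow_natCast, ← Real.rpow_mul hx0.le]
      congr 1
      push_cast
      ring
    have h5 : 0 ≤ x ^ (ε / 2) := Real.rpow_nonneg hx0.le _
    rw [Real.norm_eq_abs, Real.norm_eq_abs, abs_of_nonneg h5] at hx1
    have h6 : Real.log x ^ 2 ≤ (1 / 16) ^ 2 * x ^ ε := by
      rw [← h4, ← sq_abs, ← mul_pow]
      exact pow_le_pow_left₀ (abs_nonneg _) hx1 2
    linarith
  have h7 : ∀ᶠ x : ℝ in atTop, 2 * Real.log x + 1 ≤ x / 2 := by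
    have h2 : ∀ᶠ x : ℝ in atTop, ‖Real.log x‖ ≤ (1 / 8) * ‖id x‖ :=
      Real.isLittleO_log_id_atTop.bound (by norm_num)
    filter_upwards [h2, eventually_gt_atTop 4] with x hx1 hx0
    rw [Real.norm_eq_abs, Real.norm_eq_abs, id, abs_of_nonneg (by linarith : (0 : ℝ) ≤ x)] at hx1
    have := le_abs_self (Real.log x)
    linarith
  have h8 : ∀ᶠ x : ℝ in atTop, 1 ≤ Real.log x := by
    exact Real.tendsto_log_atTop.eventually (eventually_ge_atTop 1)
  have h9 := (((eventually_ge_atTop (3 : ℝ)).and (h8.and (h7.and h1))))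
  have h10 := tendsto_natCast_atTop_atTop.eventually h9
  rw [Filter.eventually_atTop] at h10
  exact h10

end RG

theorem rg : StmtRG := by
  intro ε hε
  obtain ⟨n0, hn0⟩ := RG.numerics ε hε
  refine ⟨n0, fun n hn s hs => ?_⟩
  obtain ⟨h3, hl1, hl2, hl3⟩ := hn0 n hn
  have hn0' : (0 : ℝ) < n := by linarith
  have hlog2 : (1 : ℝ) / 2 ≤ Real.log 2 := by
    have := Real.log_two_gt_d9
    linarith
  have hL0 : 0 ≤ Real.logb 2 n := Real.logb_nonneg (by norm_num) (by linarith)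
  have hL : Real.logb 2 n ≤ 2 * Real.log n := by
    rw [Real.logb, div_le_iff₀ (by linarith)]
    nlinarith
  have hsL : (s : ℝ) ≤ 2 * Real.log n := by nlinarith
  have hs2 : s + 2 ≤ n + s := by
    have : (2 : ℕ) ≤ n := by exact_mod_cast (by linarith : (2 : ℝ) ≤ n)
    omega
  refine RG.exists_graph s hs2 ?_
  push_cast
  -- the exponent
  have hT : (2 : ℝ) ^ s ≤ (n : ℝ) ^ (1 - ε) := by
    have h1 : (2 : ℝ) ^ s = (2 : ℝ) ^ (s : ℝ) := (Real.rpow_natCast 2 s).symm
    have h2 : (2 : ℝ) ^ (s : ℝ) ≤ (2 : ℝ) ^ ((1 - ε) * Real.logb 2 n) :=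
      Real.rpow_le_rpow_of_exponent_le (by norm_num) hs
    have h4 : (2 : ℝ) ^ ((1 - ε) * Real.logb 2 n) = (n : ℝ) ^ (1 - ε) := by
      rw [mul_comm, Real.rpow_mul (by norm_num), Real.rpow_logb (by norm_num) (by norm_num) hn0']
    rw [h1]
    exact h2.trans h4.le
  have hT0 : (0 : ℝ) < 2 ^ s := by positivity
  have hnT : (n : ℝ) ^ ε * 2 ^ s ≤ n := by
    have h1 : (n : ℝ) ^ ε * 2 ^ s ≤ (n : ℝ) ^ ε * (n : ℝ) ^ (1 - ε) :=
      mul_le_mul_of_nonneg_left hT (Real.rpow_nonneg hn0'.le _)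
    rw [← Real.rpow_add hn0'] at h1
    simpa using h1
  have hexp : (n : ℝ) ^ ε / 4 ≤ (1 / 2) ^ (s + 1) * ((n : ℝ) + s - (2 * s + 1)) := by
    have h1 : (n : ℝ) / 2 ≤ (n : ℝ) + s - (2 * s + 1) := by linarith
    have h2 : (1 / 2 : ℝ) ^ (s + 1) = 1 / (2 ^ s * 2) := by
      rw [one_div_pow, pow_succ]
    rw [h2]
    have h5 : (n : ℝ) ^ ε / 4 ≤ 1 / (2 ^ s * 2) * ((n : ℝ) / 2) := by
      rw [div_mul_eq_mul_div, one_mul, le_div_iff₀ (by positivity)]
      nlinarith
    exact h5.trans (mul_le_mul_of_nonneg_left h1 (by positivity))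
  -- the number of pairs
  have hN : (n : ℝ) + s ≤ (n : ℝ) ^ 2 := by nlinarith
  have hNpow : ((n : ℝ) + s) ^ (s + 2) ≤ Real.exp (2 * (s + 2) * Real.log n) := by
    have h1 : ((n : ℝ) + s) ^ (s + 2) ≤ ((n : ℝ) ^ 2) ^ (s + 2) :=
      pow_le_pow_left₀ (by positivity) hN _
    have h2 : ((n : ℝ) ^ 2) ^ (s + 2) = Real.exp (2 * (s + 2) * Real.log n) := by
      rw [← pow_mul]
      conv_lhs => rw [← Real.exp_log hn0']
      rw [← Real.exp_nat_mul]
      push_cast
      ring_nf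
    exact h1.trans h2.le
  have h2e : (2 : ℝ) ≤ Real.exp 1 := by
    have := Real.add_one_le_exp (1 : ℝ)
    linarith
  have hprod : 2 * (((n : ℝ) + s) ^ (s + 2) * ((n : ℝ) + s) ^ (s + 2)) ≤
      Real.exp (1 + 16 * Real.log n ^ 2) := by
    have h1 : ((n : ℝ) + s) ^ (s + 2) * ((n : ℝ) + s) ^ (s + 2) ≤
        Real.exp (2 * (s + 2) * Real.log n) * Real.exp (2 * (s + 2) * Real.log n) :=
      mul_le_mul hNpow hNpow (by positivity) (Real.exp_nonneg _)
    have h2 : 2 * (((n : ℝ) + s) ^ (s + 2) * ((n : ℝ) + s) ^ (s + 2)) ≤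
        Real.exp 1 * (Real.exp (2 * (s + 2) * Real.log n) *
          Real.exp (2 * (s + 2) * Real.log n)) :=
      mul_le_mul h2e h1 (by positivity) (Real.exp_nonneg _)
    refine h2.trans ?_
    rw [← Real.exp_add, ← Real.exp_add]
    apply Real.exp_le_exp.2
    nlinarith
  have hfin : 2 * (((n : ℝ) + s) ^ (s + 2) * ((n : ℝ) + s) ^ (s + 2)) *
      Real.exp (-((1 / 2) ^ (s + 1) * ((n : ℝ) + s - (2 * s + 1)))) ≤
      Real.exp (1 + 16 * Real.log n ^ 2) * Real.exp (-((n : ℝ) ^ ε / 4)) :=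
    mul_le_mul hprod (Real.exp_le_exp.2 (by linarith)) (Real.exp_nonneg _) (Real.exp_nonneg _)
  refine lt_of_le_of_lt hfin ?_
  rw [← Real.exp_add]
  have h0 := Real.exp_lt_exp.2
    (show 1 + 16 * Real.log n ^ 2 + -((n : ℝ) ^ ε / 4) < 0 by linarith)
  rwa [Real.exp_zero] at h0

end Pool.Agent.R896.RB
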