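import Pool.Agent.R896.RB.Defs

/-! RB-RAM: the finite Ramsey theorem. -/

set_option autoImplicit false

namespace Pool.Agent.R896.RB

namespace RamAux

theorem ramsey_cliques : ∀ a b : ℕ, ∃ N : ℕ, ∀ (V : Type) (H : SimpleGraph V) (S : Finset V),
    N ≤ S.card → (∃ T ⊆ S, T.card = a ∧ H.IsClique (T : Set V)) ∨
      ∃ T ⊆ S, T.card = b ∧ Hᶜ.IsClique (T : Set V) := by
  classical
  intro a
  induction a with
  | zero =>
    intro b
    exact ⟨0, fun V H S _ => Or.inl ⟨∅, Finset.empty_subset _, rfl, by simp⟩⟩
  | succ a iha =>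
    intro b
    induction b with
    | zero =>
      exact ⟨0, fun V H S _ => Or.inr ⟨∅, Finset.empty_subset _, rfl, by simp⟩⟩
    | succ b ihb =>
      obtain ⟨N1, h1⟩ := iha (b + 1)
      obtain ⟨N2, h2⟩ := ihb
      refine ⟨N1 + N2 + 1, fun V H S hS => ?_⟩
      obtain ⟨v, hv⟩ : S.Nonempty := by
        rw [← Finset.card_pos]; omega
      have hc : (S.erase v).card + 1 = S.card := Finset.card_erase_add_one hv
      have hsum : ((S.erase v).filter (fun x => H.Adj v x)).card +
          ((S.erase v).filter (fun x => ¬ H.Adj v x)).card = (S.erase v).card :=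
        Finset.card_filter_add_card_filter_not _
      have hAS : (S.erase v).filter (fun x => H.Adj v x) ⊆ S :=
        (Finset.filter_subset _ _).trans (Finset.erase_subset _ _)
      have hBS : (S.erase v).filter (fun x => ¬ H.Adj v x) ⊆ S :=
        (Finset.filter_subset _ _).trans (Finset.erase_subset _ _)
      by_cases hA : N1 ≤ ((S.erase v).filter (fun x => H.Adj v x)).card
      · rcases h1 V H _ hA with ⟨T, hT, hTc, hTq⟩ | ⟨T, hT, hTc, hTq⟩
        · refine Or.inl ⟨insert v T, ?_, ?_, ?_⟩
          · exact Finset.insert_subset hv (hT.trans hAS)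
          · rw [Finset.card_insert_of_notMem, hTc]
            intro hvT
            have := hT hvT
            simp at this
          · rw [Finset.coe_insert, SimpleGraph.isClique_insert]
            refine ⟨hTq, fun x hx _ => ?_⟩
            have := hT hx
            rw [Finset.mem_filter] at this
            exact this.2
        · exact Or.inr ⟨T, hT.trans hAS, hTc, hTq⟩
      · have hB : N2 ≤ ((S.erase v).filter (fun x => ¬ H.Adj v x)).card := by omega
        rcases h2 V H _ hB with ⟨T, hT, hTc, hTq⟩ | ⟨T, hT, hTc, hTq⟩
        · exact Or.inl ⟨T, hT.trans hBS, hTc, hTq⟩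
        · refine Or.inr ⟨insert v T, ?_, ?_, ?_⟩
          · exact Finset.insert_subset hv (hT.trans hBS)
          · rw [Finset.card_insert_of_notMem, hTc]
            intro hvT
            have := hT hvT
            simp at this
          · rw [Finset.coe_insert, SimpleGraph.isClique_insert]
            refine ⟨hTq, fun x hx hne => ?_⟩
            have := hT hx
            rw [Finset.mem_filter] at this
            rw [SimpleGraph.compl_adj]
            exact ⟨hne, this.2⟩

theorem contained_of_clique {n N : ℕ} (G : SimpleGraph (Fin n)) (H : SimpleGraph (Fin N))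
    (T : Finset (Fin N)) (hT : T.card = n) (hq : H.IsClique (T : Set (Fin N))) :
    G.IsContained H := by
  refine ⟨⟨⟨fun i => T.orderEmbOfFin hT i, ?_⟩, ?_⟩⟩
  · intro i j hij
    apply hq
    · exact Finset.orderEmbOfFin_mem T hT i
    · exact Finset.orderEmbOfFin_mem T hT j
    · intro e
      exact hij.ne ((T.orderEmbOfFin hT).injective e)
  · exact (T.orderEmbOfFin hT).injective

end RamAux

open RamAux in
theorem ramF : StmtRam := by
  intro n G
  obtain ⟨N, hN⟩ := ramsey_cliques n n
  refine ⟨N, fun H => ?_⟩
  rcases hN (Fin N) H Finset.univ (by simp) with ⟨T, -, hT, hq⟩ | ⟨T, -, hT, hq⟩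
  · exact Or.inl (contained_of_clique G H T hT hq)
  · exact Or.inr (contained_of_clique G Hᶜ T hT hq)

end Pool.Agent.R896.RB
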