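import Pool.Agent.R896.RB.Defs

/-!
# RB-SEQ: the star sizes
-/

set_option autoImplicit false

namespace Pool.Agent.R896.RB

open Finset Filter Topology

namespace SeqAux

/-- the maximal sequence -/
noncomputable def Q (β : ℝ) (t m : ℕ) : ℕ → ℕ
  | 0 => t
  | j + 1 => Q β t m j + 1 + ⌊(β - 1) * ((Q β t m j : ℝ) - m)⌋₊

theorem Q_growth (β : ℝ) (hβ : 1 ≤ β) (t m : ℕ) (hmt : m ≤ t) (j : ℕ) :
    β ^ j * ((t : ℝ) - m) ≤ (Q β t m j : ℝ) - m := by
  induction j with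
  | zero => simp [Q]
  | succ j ih =>
    have h0 : (0 : ℝ) ≤ (t : ℝ) - m := by
      have : (m : ℝ) ≤ t := by exact_mod_cast hmt
      linarith
    have h1 := Nat.lt_floor_add_one ((β - 1) * ((Q β t m j : ℝ) - m))
    have h2 : ((Q β t m (j + 1) : ℕ) : ℝ) = (Q β t m j : ℝ) + 1 +
        (⌊(β - 1) * ((Q β t m j : ℝ) - m)⌋₊ : ℝ) := by
      rw [Q]
      push_cast
      ring
    rw [h2]
    have h3 : β * (β ^ j * ((t : ℝ) - m)) ≤ β * ((Q β t m j : ℝ) - m) :=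
      mul_le_mul_of_nonneg_left ih (by linarith)
    have h4 : β ^ (j + 1) * ((t : ℝ) - m) = β * (β ^ j * ((t : ℝ) - m)) := by ring
    rw [h4]
    linarith

theorem bern (β : ℝ) (hβ : 3 / 2 ≤ β) (j : ℕ) : (j : ℝ) + 2 ≤ 2 * β ^ j := by
  have h1 := one_add_mul_le_pow (a := (1 / 2 : ℝ)) (by norm_num) j
  have h2 : ((1 : ℝ) + 1 / 2) ^ j ≤ β ^ j := pow_le_pow_left₀ (by norm_num) (by linarith) j
  linarith

/-- the sequence -/
noncomputable def q (β : ℝ) (n t m j : ℕ) : ℕ := min (Q β t m j) (n + t - 2 * (m - j))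

theorem q_step (β : ℝ) (hβ : 3 / 2 ≤ β) (n t m : ℕ) (hmt : m < t)
    (hD16 : (16 : ℝ) ≤ (t : ℝ) - m) (hn : 7 * m + 4 ≤ n) (j : ℕ) (hj : j < m) :
    q β n t m j + 2 ≤ q β n t m (j + 1) := by
  have h1 := Q_growth β (by linarith) t m hmt.le j
  have hpow : 1 ≤ β ^ j := one_le_pow₀ (by linarith)
  have hSD : (16 : ℝ) ≤ (Q β t m j : ℝ) - m := by nlinarith
  have hfl : 1 ≤ ⌊(β - 1) * ((Q β t m j : ℝ) - m)⌋₊ := by
    rw [Nat.one_le_floor_iff]
    nlinarith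
  have hQ2 : Q β t m j + 2 ≤ Q β t m (j + 1) := by
    rw [Q]
    omega
  unfold q
  omega

theorem main_a (β κ D S a j : ℝ) (hβ : 3 / 2 ≤ β) (hβ2 : β < 2) (hD16 : 16 ≤ D)
    (hD8 : 8 ≤ (2 - β) * D) (hκ : κ = (1 - 1 / D) / 2) (hS : D ≤ S)
    (haf2 : a ≤ (β - 1) * S) (k5 : j + 2 ≤ (2 - β) / 4 * S) :
    a + (j + 1) ≤ κ * (S + 1 + a) := by
  have hDpos : 0 < D := by linarith
  have hinv : 1 / D ≤ 1 / 16 := one_div_le_one_div_of_le (by norm_num) hD16
  have hinv0 : 0 < 1 / D := by positivity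
  have hκ4 : 1 / 4 ≤ κ := by rw [hκ]; linarith
  have hκ1 : κ ≤ 1 / 2 := by rw [hκ]; linarith
  have k1 : (1 - κ) * a ≤ (1 - κ) * ((β - 1) * S) :=
    mul_le_mul_of_nonneg_left haf2 (by linarith)
  have k2 : (1 - κ) * ((β - 1) * S) + (2 - β) / 4 * S ≤ κ * S := by
    have k3 : (1 - κ) * (β - 1) + (2 - β) / 4 ≤ κ := by
      have k4 : 1 / D ≤ (2 - β) / 8 := by
        rw [div_le_iff₀ hDpos]
        linarith
      have k6 : (1 - κ) * (β - 1) = (1 + 1 / D) / 2 * (β - 1) := by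
        rw [hκ]
        ring
      have k7 : (1 + 1 / D) / 2 * (β - 1) ≤ (1 + (2 - β) / 8) / 2 * (β - 1) := by
        apply mul_le_mul_of_nonneg_right _ (by linarith)
        linarith
      rw [k6]
      have k8 : (1 - (2 - β) / 8) / 2 ≤ κ := by rw [hκ]; linarith
      nlinarith
    calc (1 - κ) * ((β - 1) * S) + (2 - β) / 4 * S
        = ((1 - κ) * (β - 1) + (2 - β) / 4) * S := by ring
      _ ≤ κ * S := mul_le_mul_of_nonneg_right k3 (by linarith)
  have k8 : κ * (S + 1 + a) = κ * S + κ + κ * a := by ring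
  have k9 : (1 - κ) * a = a - κ * a := by ring
  rw [k8]
  rw [k9] at k1
  linarith

theorem q_main (β κ : ℝ) (hβ : 3 / 2 ≤ β) (hβ2 : β < 2) (n t m : ℕ) (hmt : m < t)
    (hD16 : (16 : ℝ) ≤ (t : ℝ) - m) (hD8 : 8 ≤ (2 - β) * ((t : ℝ) - m))
    (hκ : κ = (1 - 1 / ((t : ℝ) - m)) / 2) (hn : 7 * m + 4 ≤ n) (j : ℕ) (hj : j < m) :
    ((q β n t m (j + 1) - q β n t m j - 1 : ℕ) : ℝ) + ((j : ℝ) + 1) ≤
      κ * ((q β n t m (j + 1) : ℝ) - m) := by
  have h2 := q_step β hβ n t m hmt hD16 hn j hj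
  obtain ⟨a, ha⟩ : ∃ a : ℕ, q β n t m (j + 1) = q β n t m j + 1 + a :=
    ⟨q β n t m (j + 1) - q β n t m j - 1, by omega⟩
  have ha' : q β n t m (j + 1) - q β n t m j - 1 = a := by omega
  rw [ha', ha]
  push_cast
  rcases le_total (Q β t m j) (n + t - 2 * (m - j)) with hc | hc
  · have hqj : q β n t m j = Q β t m j := by unfold q; omega
    have hle : q β n t m (j + 1) ≤ Q β t m (j + 1) := by unfold q; omega
    have haf : a ≤ ⌊(β - 1) * ((Q β t m j : ℝ) - m)⌋₊ := by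
      rw [Q] at hle
      omega
    have hSj := Q_growth β (by linarith) t m hmt.le j
    have hpow : 1 ≤ β ^ j := one_le_pow₀ (by linarith)
    obtain ⟨S, hSdef⟩ : ∃ S : ℝ, S = (Q β t m j : ℝ) - m := ⟨_, rfl⟩
    have hSD : (t : ℝ) - m ≤ S := by rw [hSdef]; nlinarith
    rw [← hSdef] at haf hSj
    have haf2 : (a : ℝ) ≤ (β - 1) * S := by
      have h1 : (a : ℝ) ≤ (⌊(β - 1) * S⌋₊ : ℝ) := by exact_mod_cast haf
      have h3 : (0 : ℝ) ≤ (β - 1) * S := mul_nonneg (by linarith) (by linarith)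
      exact h1.trans (Nat.floor_le h3)
    rw [hqj]
    have hgoal : κ * ((Q β t m j : ℝ) + 1 + a - m) = κ * (S + 1 + a) := by
      rw [hSdef]
      ring
    rw [hgoal]
    apply main_a β κ ((t : ℝ) - m) S a j hβ hβ2 hD16 hD8 hκ hSD haf2
    have hb := bern β hβ j
    have k6 : (2 - β) / 4 * (β ^ j * ((t : ℝ) - m)) ≤ (2 - β) / 4 * S :=
      mul_le_mul_of_nonneg_left hSj (by linarith)
    have k7 : 2 * β ^ j ≤ (2 - β) / 4 * (β ^ j * ((t : ℝ) - m)) := by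
      have : (2 - β) / 4 * (β ^ j * ((t : ℝ) - m)) = β ^ j * ((2 - β) * ((t : ℝ) - m)) / 4 := by
        ring
      rw [this]
      nlinarith
    linarith
  · have hqj : q β n t m j = n + t - 2 * (m - j) := by unfold q; omega
    have hle : q β n t m (j + 1) ≤ n + t - 2 * (m - (j + 1)) := by unfold q; omega
    have ha1 : a ≤ 1 := by omega
    have hlow : 3 * m + 4 + (m + (m + 1)) ≤ q β n t m j + 1 + a := by omega
    have h1 : (a : ℝ) ≤ 1 := by exact_mod_cast ha1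
    have h3 : (j : ℝ) + 1 ≤ m := by exact_mod_cast hj
    have h4 : (3 * (m : ℝ) + 4 + (m + (m + 1))) ≤ (q β n t m j : ℝ) + 1 + a := by
      exact_mod_cast hlow
    have hm0 : (0 : ℝ) ≤ m := Nat.cast_nonneg m
    have hinv : 1 / ((t : ℝ) - m) ≤ 1 / 16 := one_div_le_one_div_of_le (by norm_num) hD16
    have hκ4 : 1 / 4 ≤ κ := by rw [hκ]; linarith
    have h5 : 1 / 4 * ((q β n t m j : ℝ) + 1 + a - m) ≤ κ * ((q β n t m j : ℝ) + 1 + a - m) :=
      mul_le_mul_of_nonneg_right hκ4 (by linarith)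
    linarith

/-- the numerical core: all conditions from a few inequalities -/
theorem core (β : ℝ) (hβ : 3 / 2 ≤ β) (hβ2 : β < 2) (n t m : ℕ) (hmt : m < t)
    (hD : 8 / (2 - β) ≤ (t : ℝ) - m) (hn : 7 * m + 4 ≤ n)
    (hbig : (n : ℝ) + ((t : ℝ) - m) ≤ β ^ m * ((t : ℝ) - m)) :
    ∃ (ρ : ℕ → ℝ) (κ : ℝ) (a r : ℕ → ℕ), 0 ≤ κ ∧
    2 * κ + 1 / ((t : ℝ) - m) ≤ 1 ∧ (∀ u : ℕ, t ≤ u → ρ u * u ≤ κ * ((u : ℝ) - m)) ∧
    r 0 = n + t ∧ (∀ i < m, r (i + 1) + a i + 1 = r i) ∧ r m = t ∧ (∀ i < m, 1 ≤ a i) ∧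
    (∀ i < m, (a i : ℝ) + ((m : ℝ) - i) ≤ ρ (r i) * r i) := by
  have hδ : (0 : ℝ) < 2 - β := by linarith
  have hDpos : (0 : ℝ) < (t : ℝ) - m := lt_of_lt_of_le (by positivity) hD
  have hD8 : 8 ≤ (2 - β) * ((t : ℝ) - m) := by
    rw [div_le_iff₀ hδ] at hD
    linarith
  have hD16 : (16 : ℝ) ≤ (t : ℝ) - m := by nlinarith
  have hstep := q_step β hβ n t m hmt hD16 hn
  obtain ⟨κ, hκ⟩ : ∃ κ : ℝ, κ = (1 - 1 / ((t : ℝ) - m)) / 2 := ⟨_, rfl⟩
  have hmain := q_main β κ hβ hβ2 n t m hmt hD16 hD8 hκ hn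
  have hinv : 1 / ((t : ℝ) - m) ≤ 1 / 16 := one_div_le_one_div_of_le (by norm_num) hD16
  have hq0 : q β n t m 0 = t := by
    unfold q
    rw [Nat.sub_zero, Q]
    omega
  have hqm : q β n t m m = n + t := by
    have hm := Q_growth β (by linarith) t m hmt.le m
    have h1 : ((n + t : ℕ) : ℝ) ≤ (Q β t m m : ℝ) := by
      push_cast
      linarith
    have h2 : n + t ≤ Q β t m m := by exact_mod_cast h1
    unfold q
    rw [Nat.sub_self]
    omega
  refine ⟨fun u => κ * ((u : ℝ) - m) / u, κ,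
    fun i => q β n t m (m - i) - q β n t m (m - i - 1) - 1,
    fun i => q β n t m (m - i), by rw [hκ]; linarith, by rw [hκ]; linarith, ?_, ?_, ?_, ?_, ?_, ?_⟩
  · intro u hu
    have hu0 : (0 : ℝ) < u := by
      have : 0 < u := by omega
      exact_mod_cast this
    exact le_of_eq (div_mul_cancel₀ _ hu0.ne')
  · exact hqm
  · intro i hi
    have h1 := hstep (m - i - 1) (by omega)
    have h2 : m - i - 1 + 1 = m - i := by omega
    have h3 : m - (i + 1) = m - i - 1 := by omega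
    rw [h2] at h1
    show q β n t m (m - (i + 1)) + (q β n t m (m - i) - q β n t m (m - i - 1) - 1) + 1 =
      q β n t m (m - i)
    rw [h3]
    omega
  · show q β n t m (m - m) = t
    rw [Nat.sub_self]
    exact hq0
  · intro i hi
    have h1 := hstep (m - i - 1) (by omega)
    have h2 : m - i - 1 + 1 = m - i := by omega
    rw [h2] at h1
    show 1 ≤ q β n t m (m - i) - q β n t m (m - i - 1) - 1
    omega
  · intro i hi
    have h0 := hmain (m - i - 1) (by omega)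
    have h1 := hstep (m - i - 1) (by omega)
    have h2 : m - i - 1 + 1 = m - i := by omega
    rw [h2] at h0 h1
    have h3 : ((m - i - 1 : ℕ) : ℝ) + 1 = (m : ℝ) - i := by
      have : ((m - i - 1 + 1 : ℕ) : ℝ) = ((m - i : ℕ) : ℝ) := by rw [h2]
      rw [Nat.cast_add, Nat.cast_one, Nat.cast_sub hi.le] at this
      exact this
    rw [h3] at h0
    have hpos : (0 : ℝ) < (q β n t m (m - i) : ℝ) := by
      have : 0 < q β n t m (m - i) := by omega
      exact_mod_cast this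
    show ((q β n t m (m - i) - q β n t m (m - i - 1) - 1 : ℕ) : ℝ) + ((m : ℝ) - i) ≤
      κ * ((q β n t m (m - i) : ℝ) - m) / (q β n t m (m - i) : ℝ) * (q β n t m (m - i) : ℝ)
    rw [div_mul_cancel₀ _ hpos.ne']
    exact h0

end SeqAux

open SeqAux

theorem sq : StmtSeq := by
  intro ε hε
  -- the base
  obtain ⟨β, hβ⟩ : ∃ β : ℝ, β = max (3 / 2) ((2 : ℝ) ^ (1 / (1 + ε / 4))) := ⟨_, rfl⟩
  have hβ1 : 3 / 2 ≤ β := by rw [hβ]; exact le_max_left _ _
  have hβ2 : β < 2 := by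
    rw [hβ]
    apply max_lt (by norm_num)
    calc (2 : ℝ) ^ (1 / (1 + ε / 4)) < (2 : ℝ) ^ (1 : ℝ) := by
          apply Real.rpow_lt_rpow_of_exponent_lt (by norm_num)
          rw [div_lt_one (by positivity)]
          linarith
      _ = 2 := by simp
  have hβ0 : 0 < β := by linarith
  have hc : 2 < β ^ (1 + ε / 2) := by
    have h1 : (2 : ℝ) ^ (1 / (1 + ε / 4)) ≤ β := by rw [hβ]; exact le_max_right _ _
    calc (2 : ℝ) = 2 ^ (1 : ℝ) := by simp
      _ < 2 ^ (1 / (1 + ε / 4) * (1 + ε / 2)) := by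
          apply Real.rpow_lt_rpow_of_exponent_lt (by norm_num)
          rw [div_mul_eq_mul_div, one_mul, lt_div_iff₀ (by positivity)]
          linarith
      _ = (2 ^ (1 / (1 + ε / 4))) ^ (1 + ε / 2) := by rw [Real.rpow_mul (by norm_num)]
      _ ≤ β ^ (1 + ε / 2) := Real.rpow_le_rpow (by positivity) h1 (by positivity)
  obtain ⟨d, hd⟩ : ∃ d : ℝ, d = β ^ (1 + ε / 2) / 2 := ⟨_, rfl⟩
  have hd1 : 1 < d := by rw [hd]; linarith
  have hlog : Tendsto (fun n : ℕ => Real.logb 2 n) atTop atTop :=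
    (Real.tendsto_logb_atTop (by norm_num)).comp tendsto_natCast_atTop_atTop
  have e1 : ∀ᶠ n : ℕ in atTop, (4 : ℝ) ≤ d ^ (Real.logb 2 n) :=
    ((tendsto_rpow_atTop_of_base_gt_one d hd1).comp hlog).eventually_ge_atTop 4
  have e2 : ∀ᶠ n : ℕ in atTop, (2 / ε) * (8 / (2 - β) + 2) + 1 ≤ Real.logb 2 n :=
    hlog.eventually_ge_atTop _
  have e3 : ∀ᶠ n : ℕ in atTop, 7 * ((1 + ε / 2) * Real.logb 2 n) + 4 ≤ (n : ℝ) := by
    have h1 : (fun n : ℕ => Real.log (n : ℝ)) =o[atTop] (fun n : ℕ => (n : ℝ)) :=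
      Real.isLittleO_log_id_atTop.comp_tendsto tendsto_natCast_atTop_atTop
    have hc0 : 0 < Real.log 2 / (14 * (1 + ε / 2)) := by
      have := Real.log_pos (show (1 : ℝ) < 2 by norm_num)
      positivity
    have h2 := h1.def hc0
    filter_upwards [h2, eventually_ge_atTop 8] with n hn hn8
    have hn8' : (8 : ℝ) ≤ n := by exact_mod_cast hn8
    rw [Real.norm_eq_abs, Real.norm_eq_abs, abs_of_nonneg (Real.log_nonneg (by linarith)),
      abs_of_nonneg (by linarith)] at hn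
    have hl2 := Real.log_pos (show (1 : ℝ) < 2 by norm_num)
    have h3 : Real.logb 2 n ≤ n / (14 * (1 + ε / 2)) := by
      unfold Real.logb
      rw [div_le_iff₀ hl2]
      calc Real.log n ≤ Real.log 2 / (14 * (1 + ε / 2)) * n := hn
        _ = n / (14 * (1 + ε / 2)) * Real.log 2 := by ring
    have h4 : (1 + ε / 2) * Real.logb 2 n ≤ n / 14 := by
      calc (1 + ε / 2) * Real.logb 2 n ≤ (1 + ε / 2) * (n / (14 * (1 + ε / 2))) :=
            mul_le_mul_of_nonneg_left h3 (by positivity)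
        _ = n / 14 := by field_simp
    linarith
  obtain ⟨n0, hn0⟩ := eventually_atTop.1 ((e1.and (e2.and e3)).and (eventually_ge_atTop 1))
  refine ⟨n0, fun n hn => ?_⟩
  obtain ⟨⟨h1, h2, h3⟩, hn1⟩ := hn0 n hn
  obtain ⟨L, hL⟩ : ∃ L : ℝ, L = Real.logb 2 n := ⟨_, rfl⟩
  rw [← hL] at h1 h2 h3
  have hδ : (0 : ℝ) < 2 - β := by linarith
  have hn1' : (1 : ℝ) ≤ n := by exact_mod_cast hn1
  have hL0 : 0 ≤ L := by
    have : 0 ≤ (2 / ε) * (8 / (2 - β) + 2) := by positivity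
    linarith
  have h2' : 8 / (2 - β) + 2 ≤ ε / 2 * L := by
    have : (2 / ε) * (8 / (2 - β) + 2) ≤ L := by linarith
    calc 8 / (2 - β) + 2 = ε / 2 * ((2 / ε) * (8 / (2 - β) + 2)) := by
          field_simp
      _ ≤ ε / 2 * L := mul_le_mul_of_nonneg_left this (by positivity)
  obtain ⟨t, ht⟩ : ∃ t : ℕ, t = ⌊(1 + ε) * L⌋₊ := ⟨_, rfl⟩
  obtain ⟨m, hm⟩ : ∃ m : ℕ, m = ⌊(1 + ε / 2) * L⌋₊ := ⟨_, rfl⟩
  have ht1 : (t : ℝ) ≤ (1 + ε) * L := by rw [ht]; exact Nat.floor_le (by positivity)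
  have ht2 : (1 + ε) * L < t + 1 := by rw [ht]; exact Nat.lt_floor_add_one _
  have hm1 : (m : ℝ) ≤ (1 + ε / 2) * L := by rw [hm]; exact Nat.floor_le (by positivity)
  have hm2 : (1 + ε / 2) * L < m + 1 := by rw [hm]; exact Nat.lt_floor_add_one _
  have hD : 8 / (2 - β) + 1 ≤ (t : ℝ) - m := by linarith
  have hDpos : (1 : ℝ) ≤ (t : ℝ) - m := by
    have : 0 ≤ 8 / (2 - β) := by positivity
    linarith
  have hmt : m < t := by
    have : (m : ℝ) < t := by linarith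
    exact_mod_cast this
  have hnn : 7 * m + 4 ≤ n := by
    have : (7 : ℝ) * m + 4 ≤ n := by linarith
    exact_mod_cast this
  have hpow : 2 * (n : ℝ) ≤ β ^ m := by
    have k1 : β ^ ((1 + ε / 2) * L - 1) ≤ β ^ (m : ℝ) :=
      Real.rpow_le_rpow_of_exponent_le (by linarith) (by linarith)
    have k2 : β ^ ((1 + ε / 2) * L - 1) = (β ^ (1 + ε / 2)) ^ L / β := by
      rw [Real.rpow_sub hβ0, Real.rpow_one, Real.rpow_mul hβ0.le]
    have k3 : β ^ (1 + ε / 2) = 2 * d := by rw [hd]; ring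
    have k4 : (2 * d) ^ L = n * d ^ L := by
      rw [Real.mul_rpow (by norm_num) (by linarith), hL,
        Real.rpow_logb (by norm_num) (by norm_num) (by linarith)]
    rw [k2, k3, k4, Real.rpow_natCast] at k1
    refine le_trans ?_ k1
    rw [le_div_iff₀ hβ0]
    have k5 : (n : ℝ) * 4 ≤ n * d ^ L := mul_le_mul_of_nonneg_left h1 (by linarith)
    nlinarith
  have hbig : (n : ℝ) + ((t : ℝ) - m) ≤ β ^ m * ((t : ℝ) - m) := by
    have k1 : 2 * (n : ℝ) * ((t : ℝ) - m) ≤ β ^ m * ((t : ℝ) - m) :=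
      mul_le_mul_of_nonneg_right hpow (by linarith)
    nlinarith
  obtain ⟨ρ, κ, a, r, c1, c2, c3, c4, c5, c6, c7, c8⟩ :=
    core β hβ1 hβ2 n t m hmt (by linarith) hnn hbig
  refine ⟨t, m, ρ, κ, a, r, ?_, c1, hmt, c2, c3, c4, c5, c6, c7, c8⟩
  rw [← hL]
  exact ht1

end Pool.Agent.R896.RB
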