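import Pool.Agent.R896.RB.Defs

/-! Project RB, piece RB-SEQ: the star sizes (simple version with `ρ u = κ (u - m) / u`). -/

set_option autoImplicit false

namespace Pool.Agent.R896.RB

open Finset Filter Topology

namespace SeqAux

/-- the maximal backward sequence -/
noncomputable def Q (g κ : ℝ) (t m : ℕ) : ℕ → ℕ
  | 0 => t
  | (j + 1) => ⌊g * ((Q g κ t m j : ℝ) - j - κ * m)⌋₊

lemma Q_lower (g κ : ℝ) (t m : ℕ) (hg : 3 / 2 ≤ g) (hκ : g * κ = g - 1) (htm : (m : ℝ) + 9 ≤ t)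
    (j : ℕ) : g ^ j * ((t : ℝ) - m - 9) + 3 * j + 9 ≤ (Q g κ t m j : ℝ) - m := by
  induction j with
  | zero => simp [Q]
  | succ j ih =>
    have h1 : g * ((Q g κ t m j : ℝ) - j - κ * m) < (Q g κ t m (j + 1) : ℝ) + 1 := by
      rw [Q]; exact Nat.lt_floor_add_one _
    have h2 : g * ((Q g κ t m j : ℝ) - j - κ * m)
        = g * ((Q g κ t m j : ℝ) - m - j) + m := by
      have : g * ((Q g κ t m j : ℝ) - j - κ * m) =
        g * ((Q g κ t m j : ℝ) - j) - (g * κ) * m := by ring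
      rw [this, hκ]; ring
    have h3 : g * (g ^ j * ((t : ℝ) - m - 9) + 3 * j + 9) ≤ g * ((Q g κ t m j : ℝ) - m) :=
      mul_le_mul_of_nonneg_left ih (by linarith)
    have hj : (0 : ℝ) ≤ j := Nat.cast_nonneg j
    have h4 : 0 ≤ (2 * g - 3) * j := mul_nonneg (by linarith) hj
    push_cast
    rw [pow_succ]
    nlinarith

lemma Q_pos (g κ : ℝ) (t m : ℕ) (hg : 3 / 2 ≤ g) (hκ : g * κ = g - 1) (htm : (m : ℝ) + 9 ≤ t)
    (j : ℕ) : (3 * j + 9 : ℝ) ≤ (Q g κ t m j : ℝ) - m := by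
  have h := Q_lower g κ t m hg hκ htm j
  have h1 : 0 ≤ g ^ j * ((t : ℝ) - m - 9) :=
    mul_nonneg (pow_nonneg (by linarith) j) (by linarith)
  linarith

lemma Q_step (g κ : ℝ) (t m : ℕ) (hg : 3 / 2 ≤ g) (hκ : g * κ = g - 1) (htm : (m : ℝ) + 9 ≤ t)
    (j : ℕ) : Q g κ t m j + 2 ≤ Q g κ t m (j + 1) := by
  have h1 : g * ((Q g κ t m j : ℝ) - j - κ * m) < (Q g κ t m (j + 1) : ℝ) + 1 := by
    rw [Q]; exact Nat.lt_floor_add_one _
  have h2 : g * ((Q g κ t m j : ℝ) - j - κ * m)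
      = g * ((Q g κ t m j : ℝ) - m - j) + m := by
    have : g * ((Q g κ t m j : ℝ) - j - κ * m) =
      g * ((Q g κ t m j : ℝ) - j) - (g * κ) * m := by ring
    rw [this, hκ]; ring
  have h3 := Q_pos g κ t m hg hκ htm j
  have hj : (0 : ℝ) ≤ j := Nat.cast_nonneg j
  have h4 : 0 ≤ (2 * g - 3) * j := mul_nonneg (by linarith) hj
  have h5 : 0 ≤ (g - 1) * ((Q g κ t m j : ℝ) - m - (3 * j + 9)) :=
    mul_nonneg (by linarith) (by linarith)
  have h6 : (Q g κ t m j : ℝ) + 2 ≤ (Q g κ t m (j + 1) : ℝ) := by nlinarith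
  exact_mod_cast h6

lemma Q_upper (g κ : ℝ) (t m : ℕ) (hg : 3 / 2 ≤ g) (hκ : g * κ = g - 1) (hκ1 : κ ≤ 1)
    (htm : (m : ℝ) + 9 ≤ t) (j : ℕ) :
    (Q g κ t m (j + 1) : ℝ) ≤ g * ((Q g κ t m j : ℝ) - j - κ * m) := by
  rw [Q]
  refine Nat.floor_le ?_
  have h3 := Q_pos g κ t m hg hκ htm j
  have hj : (0 : ℝ) ≤ j := Nat.cast_nonneg j
  have hm : (0 : ℝ) ≤ m := Nat.cast_nonneg m
  refine mul_nonneg (by linarith) ?_
  nlinarith [mul_nonneg (sub_nonneg.2 hκ1) hm]

/-- the truncated sequence -/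
noncomputable def q (g κ : ℝ) (n t m : ℕ) (j : ℕ) : ℕ :=
  min (Q g κ t m j) (n + t - 2 * (m - j))

lemma core (g κ : ℝ) (n t m : ℕ) (hg : 3 / 2 ≤ g) (hg2 : g ≤ 2) (hκ : g * κ = g - 1)
    (htm : (m : ℝ) + 11 ≤ t) (hκt : 2 * κ + 1 / ((t : ℝ) - m) ≤ 1) (hnm : 10 * m + 4 ≤ n)
    (htn : t ≤ n) (hgn : (n : ℝ) ≤ g ^ m) :
    ∃ (ρ : ℕ → ℝ) (a r : ℕ → ℕ), 0 ≤ κ ∧ m < t ∧
    2 * κ + 1 / ((t : ℝ) - m) ≤ 1 ∧ (∀ u : ℕ, t ≤ u → ρ u * u ≤ κ * ((u : ℝ) - m)) ∧
    r 0 = n + t ∧ (∀ i < m, r (i + 1) + a i + 1 = r i) ∧ r m = t ∧ (∀ i < m, 1 ≤ a i) ∧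
    (∀ i < m, (a i : ℝ) + ((m : ℝ) - i) ≤ ρ (r i) * r i) := by
  have hκ0 : 0 ≤ κ := by
    by_contra h
    push Not at h
    nlinarith
  have hκ1 : κ ≤ 1 := by
    by_contra h
    push Not at h
    nlinarith
  have htm' : (m : ℝ) + 9 ≤ t := by linarith
  have hmt : m < t := by
    have : (m : ℝ) < t := by linarith
    exact_mod_cast this
  have htm9 : m + 11 ≤ t := by exact_mod_cast htm
  -- the sequence q
  have hqstep : ∀ j, j < m → q g κ n t m j + 2 ≤ q g κ n t m (j + 1) := by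
    intro j hj
    have h := Q_step g κ t m hg hκ htm' j
    unfold q
    omega
  have hQm : ∀ j, m ≤ Q g κ t m j := by
    intro j
    have h := Q_pos g κ t m hg hκ htm' j
    have hj : (0 : ℝ) ≤ j := Nat.cast_nonneg j
    have : (m : ℝ) ≤ Q g κ t m j := by linarith
    exact_mod_cast this
  have hqupper : ∀ j, j < m → (q g κ n t m (j + 1) : ℝ) ≤
      g * ((q g κ n t m j : ℝ) - j - κ * m) := by
    intro j hj
    rcases le_total (Q g κ t m j) (n + t - 2 * (m - j)) with h | h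
    · have e1 : q g κ n t m j = Q g κ t m j := by unfold q; exact min_eq_left h
      rw [e1]
      refine le_trans ?_ (Q_upper g κ t m hg hκ hκ1 htm' j)
      have : q g κ n t m (j + 1) ≤ Q g κ t m (j + 1) := by unfold q; exact min_le_left _ _
      exact_mod_cast this
    · have e1 : q g κ n t m j = n + t - 2 * (m - j) := by unfold q; exact min_eq_right h
      have e2 : q g κ n t m (j + 1) ≤ q g κ n t m j + 2 := by
        rw [e1]
        have : q g κ n t m (j + 1) ≤ n + t - 2 * (m - (j + 1)) := by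
          unfold q; exact min_le_right _ _
        omega
      have e3 : 8 * m + 4 ≤ q g κ n t m j := by rw [e1]; omega
      have e2' : (q g κ n t m (j + 1) : ℝ) ≤ (q g κ n t m j : ℝ) + 2 := by exact_mod_cast e2
      have e3' : (8 * m + 4 : ℝ) ≤ (q g κ n t m j : ℝ) := by exact_mod_cast e3
      have hj' : (j : ℝ) ≤ m := by exact_mod_cast hj.le
      have hj0 : (0 : ℝ) ≤ j := Nat.cast_nonneg j
      have hm0 : (0 : ℝ) ≤ m := Nat.cast_nonneg m
      have e4 : g * ((q g κ n t m j : ℝ) - j - κ * m) =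
          (q g κ n t m j : ℝ) + (g - 1) * ((q g κ n t m j : ℝ) - m) - g * j := by
        have : g * ((q g κ n t m j : ℝ) - j - κ * m) =
          g * ((q g κ n t m j : ℝ) - j) - (g * κ) * m := by ring
        rw [this, hκ]; ring
      rw [e4]
      have e5 : (1 / 2 : ℝ) * ((q g κ n t m j : ℝ) - m) ≤
          (g - 1) * ((q g κ n t m j : ℝ) - m) :=
        mul_le_mul_of_nonneg_right (by linarith) (by linarith)
      have e6 : g * j ≤ 2 * m := by
        calc g * j ≤ 2 * j := mul_le_mul_of_nonneg_right hg2 hj0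
          _ ≤ 2 * m := by linarith
      linarith
  have hqm : q g κ n t m m = n + t := by
    have h := Q_lower g κ t m hg hκ htm' m
    have hgm : 0 ≤ g ^ m := pow_nonneg (by linarith) m
    have h1 : g ^ m * 2 ≤ g ^ m * ((t : ℝ) - m - 9) :=
      mul_le_mul_of_nonneg_left (by linarith) hgm
    have htn' : (t : ℝ) ≤ n := by exact_mod_cast htn
    have hm0 : (0 : ℝ) ≤ m := Nat.cast_nonneg m
    have h2 : ((n + t : ℕ) : ℝ) ≤ Q g κ t m m := by push_cast; linarith
    have h3 : n + t ≤ Q g κ t m m := by exact_mod_cast h2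
    unfold q
    rw [Nat.sub_self, Nat.mul_zero, Nat.sub_zero]
    exact min_eq_right h3
  have hq0 : q g κ n t m 0 = t := by
    unfold q
    rw [Q]
    omega
  have hqt : ∀ j, j ≤ m → t ≤ q g κ n t m j := by
    intro j
    induction j with
    | zero => intro _; rw [hq0]
    | succ j ih =>
      intro hj
      have h1 := ih (by omega)
      have h2 := hqstep j (by omega)
      omega
  refine ⟨fun u => κ * ((u : ℝ) - m) / u,
    fun i => q g κ n t m (m - i) - q g κ n t m (m - (i + 1)) - 1,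
    fun i => q g κ n t m (m - i), hκ0, hmt, hκt, ?_, ?_, ?_, ?_, ?_, ?_⟩
  · intro u hu
    have : (0 : ℝ) < u := by
      have : 0 < u := by omega
      exact_mod_cast this
    simp only
    rw [div_mul_cancel₀ _ this.ne']
  · simpa using hqm
  · intro i hi
    have h := hqstep (m - (i + 1)) (by omega)
    have e : m - (i + 1) + 1 = m - i := by omega
    rw [e] at h
    simp only
    omega
  · simpa using hq0
  · intro i hi
    have h := hqstep (m - (i + 1)) (by omega)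
    have e : m - (i + 1) + 1 = m - i := by omega
    rw [e] at h
    simp only
    omega
  · intro i hi
    obtain ⟨j, hj⟩ : ∃ j, m = i + (j + 1) := ⟨m - (i + 1), by omega⟩
    have e1 : m - i = j + 1 := by omega
    have e2 : m - (i + 1) = j := by omega
    have h := hqstep j (by omega)
    have hu := hqupper j (by omega)
    have ht := hqt (j + 1) (by omega)
    simp only [e1, e2]
    have hpos : (0 : ℝ) < q g κ n t m (j + 1) := by
      have : 0 < q g κ n t m (j + 1) := by omega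
      exact_mod_cast this
    rw [div_mul_cancel₀ _ hpos.ne']
    have e3 : ((q g κ n t m (j + 1) - q g κ n t m j - 1 : ℕ) : ℝ) =
        (q g κ n t m (j + 1) : ℝ) - q g κ n t m j - 1 := by
      rw [Nat.cast_sub (by omega), Nat.cast_sub (by omega)]
      simp
    rw [e3]
    have e4 : (m : ℝ) - i = j + 1 := by
      rw [hj]; push_cast; ring
    rw [e4]
    -- (1 - κ) q(j+1) ≤ q j - j - κ m
    have e5 : (1 - κ) * (g * ((q g κ n t m j : ℝ) - j - κ * m)) =
        (q g κ n t m j : ℝ) - j - κ * m := by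
      have : (1 - κ) * g = 1 := by linarith
      calc (1 - κ) * (g * ((q g κ n t m j : ℝ) - j - κ * m)) =
          ((1 - κ) * g) * ((q g κ n t m j : ℝ) - j - κ * m) := by ring
        _ = _ := by rw [this]; ring
    have e6 := mul_le_mul_of_nonneg_left hu (sub_nonneg.2 hκ1)
    rw [e5] at e6
    linarith

end SeqAux

open SeqAux in
theorem sq : StmtSeq := by
  intro ε0 hε0
  set ε : ℝ := min ε0 1 with hεdef
  have hε : 0 < ε := lt_min hε0 one_pos
  have hε1 : ε ≤ 1 := min_le_right _ _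
  have hεε : ε ≤ ε0 := min_le_left _ _
  set c : ℝ := 1 / (1 + ε / 4) with hc
  have hc1 : c < 1 := by
    rw [hc, div_lt_one (by linarith)]; linarith
  have hc45 : 4 / 5 ≤ c := by
    rw [hc, le_div_iff₀ (by linarith)]; linarith
  set g : ℝ := (2 : ℝ) ^ c with hgdef
  have hg2 : g < 2 := by
    calc g < (2 : ℝ) ^ (1 : ℝ) := Real.rpow_lt_rpow_of_exponent_lt (by norm_num) hc1
      _ = 2 := Real.rpow_one 2
  have hg32 : 3 / 2 ≤ g := by
    have h1 : (2 : ℝ) ^ (4 / 5 : ℝ) ≤ g := Real.rpow_le_rpow_of_exponent_le (by norm_num) hc45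
    have h2 : (3 / 2 : ℝ) ≤ (2 : ℝ) ^ (4 / 5 : ℝ) := by
      have h3 : ((2 : ℝ) ^ (4 / 5 : ℝ)) ^ 5 = 16 := by
        rw [← Real.rpow_natCast, ← Real.rpow_mul (by norm_num)]
        norm_num
      by_contra h
      push Not at h
      have h4 : ((2 : ℝ) ^ (4 / 5 : ℝ)) ^ 5 < (3 / 2 : ℝ) ^ 5 :=
        pow_lt_pow_left₀ h (Real.rpow_nonneg (by norm_num) _) (by norm_num)
      rw [h3] at h4
      norm_num at h4
    linarith
  have hg0 : 0 < g := by linarith
  set κ : ℝ := 1 - 1 / g with hκdef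
  have hκ : g * κ = g - 1 := by
    rw [hκdef]; field_simp
  set δ : ℝ := 2 / g - 1 with hδdef
  have hδ : 0 < δ := by
    rw [hδdef, sub_pos, lt_div_iff₀ hg0]; linarith
  -- large n
  have hL : Tendsto (fun n : ℕ => Real.logb 2 n) atTop atTop :=
    (Real.tendsto_logb_atTop (by norm_num)).comp tendsto_natCast_atTop_atTop
  have hlin : ∀ᶠ n : ℕ in atTop, 20 * Real.logb 2 n + 4 ≤ n := by
    have h1 : (fun x : ℝ => Real.log x) =o[atTop] (fun x : ℝ => x) := Real.isLittleO_log_id_atTop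
    have h2 := h1.bound (show (0 : ℝ) < Real.log 2 / 40 by
      have := Real.log_pos (show (1 : ℝ) < 2 by norm_num); positivity)
    have h3 := tendsto_natCast_atTop_atTop (R := ℝ) |>.eventually h2
    filter_upwards [h3, eventually_ge_atTop 8] with n hn hn8
    have hn8' : (8 : ℝ) ≤ n := by exact_mod_cast hn8
    have hl2 : 0 < Real.log 2 := Real.log_pos (by norm_num)
    rw [Real.norm_eq_abs, Real.norm_eq_abs, abs_of_nonneg (Real.log_nonneg (by linarith)),
      abs_of_nonneg (by linarith)] at hn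
    have h5 : Real.logb 2 n ≤ n / 40 := by
      rw [Real.logb, div_le_iff₀ hl2]
      calc Real.log n ≤ Real.log 2 / 40 * n := hn
        _ = n / 40 * Real.log 2 := by ring
    linarith
  have hev : ∀ᶠ n : ℕ in atTop, (24 / ε + 2 * (1 / δ + 1) / ε) ≤ Real.logb 2 n ∧
      20 * Real.logb 2 n + 4 ≤ n ∧ 1 ≤ n :=
    (hL.eventually_ge_atTop _).and (hlin.and (eventually_ge_atTop 1))
  obtain ⟨n0, hn0⟩ := eventually_atTop.1 hev
  refine ⟨n0, fun n hn => ?_⟩
  obtain ⟨h1, h2, h3⟩ := hn0 n hn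
  set L : ℝ := Real.logb 2 n with hLdef
  have hεL1 : 24 ≤ ε * L := by
    have hpos : 0 ≤ 2 * (1 / δ + 1) / ε := by positivity
    have : 24 / ε ≤ L := by linarith
    rw [div_le_iff₀ hε] at this
    linarith
  have hεL2 : 2 * (1 / δ + 1) ≤ ε * L := by
    have hpos : 0 ≤ 24 / ε := by positivity
    have : 2 * (1 / δ + 1) / ε ≤ L := by linarith
    rw [div_le_iff₀ hε] at this
    linarith
  have hL0 : 0 ≤ L := by
    by_contra h
    push Not at h
    nlinarith
  set m : ℕ := ⌊(1 + ε / 2) * L⌋₊ with hm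
  set t : ℕ := ⌊(1 + ε) * L⌋₊ with ht
  have hm1 : (m : ℝ) ≤ (1 + ε / 2) * L := Nat.floor_le (by positivity)
  have hm2 : (1 + ε / 2) * L < m + 1 := Nat.lt_floor_add_one _
  have ht1 : (t : ℝ) ≤ (1 + ε) * L := Nat.floor_le (by positivity)
  have ht2 : (1 + ε) * L < t + 1 := Nat.lt_floor_add_one _
  have hdiff : ε / 2 * L - 1 < (t : ℝ) - m := by nlinarith
  have hεL' : ε * L ≤ L := by nlinarith
  have hcore := core g κ n t m hg32 hg2.le hκ (by linarith) ?_ ?_ ?_ ?_
  · obtain ⟨ρ, a, r, H⟩ := hcore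
    refine ⟨t, m, ρ, κ, a, r, ?_, H⟩
    calc (t : ℝ) ≤ (1 + ε) * L := ht1
      _ ≤ (1 + ε0) * L := mul_le_mul_of_nonneg_right (by linarith) hL0
  · have h4 : 1 / δ ≤ (t : ℝ) - m := by linarith
    have h5 : 0 < 1 / δ := by positivity
    have h6 : 1 / ((t : ℝ) - m) ≤ δ := by
      rw [div_le_iff₀ (by linarith)]
      rw [div_le_iff₀ hδ] at h4
      linarith
    have h7 : 2 * κ = 1 - δ := by
      rw [hκdef, hδdef]; ring
    linarith
  · have : ((10 * m + 4 : ℕ) : ℝ) ≤ n := by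
      push_cast
      linarith
    exact_mod_cast this
  · have : (t : ℝ) ≤ n := by linarith
    exact_mod_cast this
  · have hn1 : (0 : ℝ) < n := by exact_mod_cast h3
    have h4 : (n : ℝ) = (2 : ℝ) ^ L := by
      rw [hLdef, Real.rpow_logb (by norm_num) (by norm_num) hn1]
    rw [h4, hgdef, ← Real.rpow_natCast, ← Real.rpow_mul (by norm_num)]
    refine Real.rpow_le_rpow_of_exponent_le (by norm_num) ?_
    rw [hc, one_div, inv_mul_eq_div, le_div_iff₀ (by linarith)]
    linarith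

end Pool.Agent.R896.RB
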