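import Pool.Agent.R896.RB.Defs

/-! RB-STEP (helper608 for helper896): a good colour contains the star forest. -/

set_option autoImplicit false

namespace Pool.Agent.R896.RB

open Finset

namespace StepAux

theorem hall {ι V : Type} [DecidableEq ι] [DecidableEq V] (T : ι → Finset V) (a : ι → ℕ)
    (h : ∀ F : Finset ι, ∑ j ∈ F, a j ≤ (F.biUnion T).card) :
    ∃ L : ι → Finset V, (∀ j, L j ⊆ T j ∧ (L j).card = a j) ∧
      ∀ j k, j ≠ k → Disjoint (L j) (L k) := by
  classical
  have hall := (Finset.all_card_le_biUnion_card_iff_exists_injective
    (fun p : Σ j : ι, Fin (a j) => T p.1)).1 ?_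
  · obtain ⟨f, hf, hfT⟩ := hall
    refine ⟨fun j => univ.image fun k : Fin (a j) => f ⟨j, k⟩, fun j => ⟨?_, ?_⟩, ?_⟩
    · intro y hy
      obtain ⟨k, -, rfl⟩ := mem_image.1 hy
      exact hfT ⟨j, k⟩
    · rw [card_image_of_injective, card_univ, Fintype.card_fin]
      intro k l hkl
      have := hf hkl
      simpa using this
    · intro j k hjk
      rw [disjoint_left]
      intro y hy hy'
      obtain ⟨p, -, rfl⟩ := mem_image.1 hy
      obtain ⟨q, -, hq⟩ := mem_image.1 hy'
      have := hf hq
      exact hjk (congrArg Sigma.fst this).symm
  · intro s
    have h1 : s ⊆ (s.image Sigma.fst).sigma (fun j => (univ : Finset (Fin (a j)))) := by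
      intro p hp
      simp only [mem_sigma, mem_univ, and_true]
      exact mem_image_of_mem _ hp
    have h2 : s.biUnion (fun p : Σ j : ι, Fin (a j) => T p.1) = (s.image Sigma.fst).biUnion T := by
      rw [image_biUnion]
    rw [h2]
    refine (card_le_card h1).trans ?_
    rw [card_sigma]
    simpa using h _

theorem hallN {V : Type} [DecidableEq V] (i : ℕ) (T : ℕ → Finset V) (a : ℕ → ℕ)
    (h : ∀ F ⊆ range i, ∑ j ∈ F, a j ≤ (F.biUnion T).card) :
    ∃ L : ℕ → Finset V, (∀ j < i, L j ⊆ T j ∧ (L j).card = a j) ∧
      ∀ j k, j ≠ k → Disjoint (L j) (L k) := by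
  obtain ⟨L, hL, hd⟩ := hall T (fun j => if j < i then a j else 0) (by
    intro F
    rw [← sum_filter]
    refine (h _ ?_).trans
      (card_le_card (biUnion_subset_biUnion_of_subset_left _ (filter_subset _ _)))
    intro j hj
    exact mem_range.2 (mem_filter.1 hj).2)
  refine ⟨L, fun j hj => ?_, hd⟩
  have := hL j
  rw [if_pos hj] at this
  exact this

theorem sdiff_bi {V : Type} [DecidableEq V] (F : Finset ℕ) (T : ℕ → Finset V) (S : Finset V) :
    (F.biUnion fun j => T j \ S) = (F.biUnion T) \ S := by
  ext y
  simp only [mem_biUnion, mem_sdiff]
  constructor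
  · rintro ⟨j, hj, h1, h2⟩
    exact ⟨⟨j, hj, h1⟩, h2⟩
  · rintro ⟨⟨j, hj, h1⟩, h2⟩
    exact ⟨j, hj, h1, h2⟩

end StepAux

open StepAux

theorem stp : StmtStep := by
  classical
  intro V _ _ H t m ρ a r hgood hr0 hr htm ha
  rcases Nat.eq_zero_or_pos m with rfl | hm
  · exact ⟨fun i => i.elim0, fun i => i.elim0, fun i => i.elim0, fun i => i.elim0,
      fun i => i.elim0, fun i => i.elim0, fun i => i.elim0⟩
  have hne : Nonempty V := by
    have h1 := hr 0 hm
    rw [hr0] at h1
    exact Fintype.card_pos_iff.1 (by omega)
  obtain ⟨v0⟩ := hne
  have hrsum : ∀ i ≤ m, r i + ∑ j ∈ range i, (a j + 1) = Fintype.card V := by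
    intro i
    induction i with
    | zero =>
      intro _
      simpa using hr0
    | succ i ih =>
      intro hi
      have h1 := ih (by omega)
      have h2 := hr i (by omega)
      rw [sum_range_succ]
      omega
  have hrt : ∀ i ≤ m, t ≤ r i := by
    intro i hi
    have h1 := hrsum i hi
    have h2 := hrsum m le_rfl
    have h3 : ∑ j ∈ range i, (a j + 1) ≤ ∑ j ∈ range m, (a j + 1) :=
      sum_le_sum_of_subset (range_mono hi)
    omega
  let Nb : V → Finset V := fun x => univ.filter fun y => H.Adj x y
  have hNb : ∀ x y, y ∈ Nb x ↔ H.Adj x y := fun x y => by simp [Nb]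
  have key : ∀ i ≤ m, ∃ v : ℕ → V, Set.InjOn v (range i : Set ℕ) ∧
      ∀ F ⊆ range i, F.Nonempty → ∑ j ∈ F, a j + (m - i) ≤
        ((F.biUnion fun j => Nb (v j)) \ (range i).image v).card := by
    intro i
    induction i with
    | zero =>
      intro _
      refine ⟨fun _ => v0, by simp, ?_⟩
      intro F hF hFne
      obtain ⟨j, hj⟩ := hFne
      simpa using hF hj
    | succ i ih =>
      intro hi
      obtain ⟨v, hv, hF⟩ := ih (by omega)
      obtain ⟨S, hS⟩ : ∃ S, S = (range i).image v := ⟨_, rfl⟩
      rw [← hS] at hF
      have hScard : S.card = i := by rw [hS, card_image_of_injOn hv, card_range]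
      obtain ⟨L, hL, hLd⟩ := hallN i (fun j => Nb (v j) \ S) a (by
        intro F hFi
        rcases F.eq_empty_or_nonempty with rfl | hne
        · simp
        · rw [sdiff_bi F (fun j => Nb (v j)) S]
          have := hF F hFi hne
          omega)
      obtain ⟨P, hP⟩ : ∃ P, P = (range i).biUnion L := ⟨_, rfl⟩
      obtain ⟨R, hR⟩ : ∃ R, R = (S ∪ P)ᶜ := ⟨_, rfl⟩
      have hPcard : P.card = ∑ j ∈ range i, a j := by
        rw [hP, card_biUnion (fun j _ k _ hjk => hLd j k hjk)]
        exact sum_congr rfl fun j hj => (hL j (mem_range.1 hj)).2
      have hSP : Disjoint S P := by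
        rw [disjoint_left]
        intro y hy hyP
        rw [hP] at hyP
        obtain ⟨j, hj, hyj⟩ := mem_biUnion.1 hyP
        exact (mem_sdiff.1 ((hL j (mem_range.1 hj)).1 hyj)).2 hy
      have hRcard : R.card = r i := by
        rw [hR, card_compl, card_union_of_disjoint hSP, hScard, hPcard]
        have h1 := hrsum i (by omega)
        rw [sum_add_distrib] at h1
        simp only [sum_const, card_range, smul_eq_mul, mul_one] at h1
        omega
      have hRS : Disjoint R S := by
        rw [disjoint_left]
        intro y hy hyS
        rw [hR, mem_compl] at hy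
        exact hy (mem_union_left _ hyS)
      obtain ⟨x, hxS, hx⟩ := hgood R S hRS (by rw [hRcard]; exact hrt i (by omega))
        (by rw [hScard]; omega)
      rw [hRcard] at hx
      have hx2 : a i + (m - i) ≤ (R.filter fun y => H.Adj x y).card := by
        have h1 := (ha i (by omega)).trans hx
        have h2 : ((a i + (m - i) : ℕ) : ℝ) = (a i : ℝ) + ((m : ℝ) - i) := by
          rw [Nat.cast_add, Nat.cast_sub (by omega)]
        rw [← h2] at h1
        exact_mod_cast h1
      refine ⟨Function.update v i x, ?_, ?_⟩
      · intro j hj k hk hjk
        simp only [coe_range, Set.mem_Iio] at hj hk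
        by_cases hji : j = i
        · by_cases hki : k = i
          · omega
          · exfalso
            rw [hji, Function.update_self, Function.update_of_ne hki] at hjk
            apply hxS
            rw [hS, hjk]
            exact mem_image_of_mem _ (mem_range.2 (by omega))
        · by_cases hki : k = i
          · exfalso
            rw [hki, Function.update_self, Function.update_of_ne hji] at hjk
            apply hxS
            rw [hS, ← hjk]
            exact mem_image_of_mem _ (mem_range.2 (by omega))
          · rw [Function.update_of_ne hji, Function.update_of_ne hki] at hjk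
            exact hv (by simp only [coe_range, Set.mem_Iio]; omega)
              (by simp only [coe_range, Set.mem_Iio]; omega) hjk
      · have hS' : (range (i + 1)).image (Function.update v i x) = insert x S := by
          rw [range_add_one, image_insert, Function.update_self, hS]
          congr 1
          apply image_congr
          intro j hj
          simp only [coe_range, Set.mem_Iio] at hj
          exact Function.update_of_ne (by omega) _ _
        rw [hS']
        intro F hFi hFne
        by_cases hiF : i ∈ F
        · obtain ⟨F', hF'⟩ : ∃ F', F' = F.erase i := ⟨_, rfl⟩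
          have hF'i : ∀ j ∈ F', j < i := by
            intro j hj
            rw [hF', mem_erase] at hj
            have := mem_range.1 (hFi hj.2)
            omega
          have hsum : ∑ j ∈ F, a j = ∑ j ∈ F', a j + a i := by
            rw [hF', sum_erase_add _ _ hiF]
          have hLcard : (F'.biUnion L).card = ∑ j ∈ F', a j := by
            rw [card_biUnion (fun j _ k _ hjk => hLd j k hjk)]
            exact sum_congr rfl fun j hj => (hL j (hF'i j hj)).2
          have hdisj : Disjoint ((F'.biUnion L).erase x) (R.filter fun y => H.Adj x y) := by
            rw [disjoint_left]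
            intro y hy hyR
            obtain ⟨j, hj, hyj⟩ := mem_biUnion.1 (mem_of_mem_erase hy)
            have h1 := (mem_filter.1 hyR).1
            rw [hR, mem_compl] at h1
            apply h1
            apply mem_union_right
            rw [hP]
            exact mem_biUnion.2 ⟨j, mem_range.2 (hF'i j hj), hyj⟩
          have hsub : (F'.biUnion L).erase x ∪ (R.filter fun y => H.Adj x y) ⊆
              (F.biUnion fun j => Nb (Function.update v i x j)) \ insert x S := by
            intro y hy
            rcases mem_union.1 hy with hy | hy
            · rw [mem_erase] at hy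
              obtain ⟨hyx, hy⟩ := hy
              obtain ⟨j, hj, hyj⟩ := mem_biUnion.1 hy
              have h1 := mem_sdiff.1 ((hL j (hF'i j hj)).1 hyj)
              rw [mem_sdiff, mem_insert, not_or]
              refine ⟨mem_biUnion.2 ⟨j, ?_, ?_⟩, hyx, h1.2⟩
              · rw [hF'] at hj
                exact mem_of_mem_erase hj
              · rw [Function.update_of_ne (by have := hF'i j hj; omega)]
                exact h1.1
            · have h1 := mem_filter.1 hy
              rw [mem_sdiff, mem_insert, not_or]
              refine ⟨mem_biUnion.2 ⟨i, hiF, ?_⟩, ?_, ?_⟩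
              · rw [Function.update_self, hNb]
                exact h1.2
              · rintro rfl
                exact H.loopless.irrefl _ h1.2
              · exact disjoint_left.1 hRS h1.1
          have h1 := card_le_card hsub
          rw [card_union_of_disjoint hdisj] at h1
          have h2 := pred_card_le_card_erase (s := F'.biUnion L) (a := x)
          rw [hLcard] at h2
          omega
        · have hFi' : F ⊆ range i := by
            intro j hj
            have := mem_range.1 (hFi hj)
            have : j ≠ i := fun h => hiF (h ▸ hj)
            exact mem_range.2 (by omega)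
          have h1 := hF F hFi' hFne
          have h2 : (F.biUnion fun j => Nb (Function.update v i x j)) =
              F.biUnion fun j => Nb (v j) := by
            apply biUnion_congr rfl
            intro j hj
            rw [Function.update_of_ne (by have := mem_range.1 (hFi' hj); omega)]
          rw [h2]
          have h3 : (F.biUnion fun j => Nb (v j)) \ insert x S =
              ((F.biUnion fun j => Nb (v j)) \ S).erase x := by
            ext y
            simp only [mem_sdiff, mem_insert, mem_erase, not_or]
            tauto
          rw [h3]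
          have h4 := pred_card_le_card_erase (s := (F.biUnion fun j => Nb (v j)) \ S) (a := x)
          omega
  obtain ⟨v, hv, hF⟩ := key m le_rfl
  obtain ⟨L, hL, hLd⟩ := hallN m (fun j => Nb (v j) \ (range m).image v) a (by
    intro F hFi
    rcases F.eq_empty_or_nonempty with rfl | hne
    · simp
    · rw [sdiff_bi F (fun j => Nb (v j))]
      have := hF F hFi hne
      omega)
  refine ⟨fun i => v i, fun i => L i, ?_, fun i => (hL i i.2).2, ?_, ?_, ?_⟩
  · intro i j hij
    exact Fin.ext (hv (by simp) (by simp) hij)
  · intro i y hy
    exact (hNb _ _).1 (mem_sdiff.1 ((hL i i.2).1 hy)).1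
  · intro i j hij
    exact hLd i j fun h => hij (Fin.ext h)
  · intro i j hmem
    exact (mem_sdiff.1 ((hL i i.2).1 hmem)).2 (mem_image_of_mem _ (mem_range.2 j.2))

end Pool.Agent.R896.RB
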